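import Pool.Agent.H224.BM.Energy

/-!
# The pairing of a function on the fibres with the random projections of a measure
-/

set_option autoImplicit false

open MeasureTheory Set Metric Filter Topology
open scoped ENNReal NNReal

namespace Pool.Agent.H224.BM

variable {N j : ℕ} {Ω : Type} [MeasurableSpace Ω] {μ : Measure Ω}
variable {T : Ω → EuclideanSpace ℝ (Fin N) → EuclideanSpace ℝ (Fin j)} {C : ℝ}

theorem swap_hh (hT : RP μ T C) (δ : ℝ) (ν : Measure (EuclideanSpace ℝ (Fin N))) [SFinite ν]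
    (ω : Ω) (G : EuclideanSpace ℝ (Fin j) → ℝ≥0∞) (hG : Measurable G) :
    ∫⁻ q, ∫⁻ σ in closedBall (T ω q) δ, G σ ∂volume ∂ν = ∫⁻ σ, G σ * hh ν T δ ω σ := by
  set D : Set (EuclideanSpace ℝ (Fin N) × EuclideanSpace ℝ (Fin j)) :=
    {z | ‖z.2 - T ω z.1‖ ≤ δ} with hD
  have hTω : Measurable fun q : EuclideanSpace ℝ (Fin N) => T ω q :=
    hT.meas.comp measurable_prodMk_left
  have hDm : MeasurableSet D :=
    measurableSet_le (measurable_snd.sub (hTω.comp measurable_fst)).norm measurable_const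
  have g0 : Measurable (D.indicator
      (1 : EuclideanSpace ℝ (Fin N) × EuclideanSpace ℝ (Fin j) → ℝ≥0∞)) :=
    measurable_one.indicator hDm
  have g1 : Measurable fun z : EuclideanSpace ℝ (Fin N) × EuclideanSpace ℝ (Fin j) =>
      G z.2 * D.indicator 1 z := (hG.comp measurable_snd).mul g0
  have h1 : ∀ q, ∫⁻ σ in closedBall (T ω q) δ, G σ ∂volume =
      ∫⁻ σ, G σ * D.indicator 1 (q, σ) := by
    intro q
    rw [← lintegral_indicator isClosed_closedBall.measurableSet]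
    refine lintegral_congr fun σ => ?_
    by_cases hσ : σ ∈ closedBall (T ω q) δ
    · have h2 : (q, σ) ∈ D := by
        rw [mem_closedBall, dist_eq_norm] at hσ
        exact hσ
      rw [indicator_of_mem hσ, indicator_of_mem h2, Pi.one_apply, mul_one]
    · have h2 : (q, σ) ∉ D := by
        intro h
        apply hσ
        rw [mem_closedBall, dist_eq_norm]
        exact h
      rw [indicator_of_notMem hσ, indicator_of_notMem h2, mul_zero]
  have h3 : ∀ σ, G σ * hh ν T δ ω σ = ∫⁻ q, G σ * D.indicator 1 (q, σ) ∂ν := by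
    intro σ
    have hmk : Measurable (fun q : EuclideanSpace ℝ (Fin N) => (q, σ)) := measurable_prodMk_right
    have h4 : MeasurableSet ((fun q : EuclideanSpace ℝ (Fin N) => (q, σ)) ⁻¹' D) := hmk hDm
    have h5 : hh ν T δ ω σ = ν ((fun q : EuclideanSpace ℝ (Fin N) => (q, σ)) ⁻¹' D) := rfl
    have h6 : Measurable fun q : EuclideanSpace ℝ (Fin N) =>
        D.indicator (1 : EuclideanSpace ℝ (Fin N) × EuclideanSpace ℝ (Fin j) → ℝ≥0∞) (q, σ) :=
      g0.comp hmk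
    rw [lintegral_const_mul _ h6, h5, ← lintegral_indicator_one h4]
    rfl
  rw [lintegral_congr h1, lintegral_congr h3]
  exact lintegral_lintegral_swap g1.aemeasurable

theorem lint_hh (hT : RP μ T C) (δ : ℝ) (hδ : 0 ≤ δ) (ν : Measure (EuclideanSpace ℝ (Fin N)))
    [SFinite ν] (ω : Ω) : ∫⁻ σ, hh ν T δ ω σ =
      ENNReal.ofReal (δ ^ j) * volume (closedBall (0 : EuclideanSpace ℝ (Fin j)) 1) * ν univ := by
  have h1 := swap_hh hT δ ν ω (fun _ => 1) measurable_const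
  simp only [one_mul] at h1
  rw [← h1]
  have h2 : ∀ q, ∫⁻ σ in closedBall (T ω q) δ, (1 : ℝ≥0∞) ∂volume =
      ENNReal.ofReal (δ ^ j) * volume (closedBall (0 : EuclideanSpace ℝ (Fin j)) 1) := by
    intro q
    rw [setLIntegral_const, one_mul, Measure.addHaar_closedBall' _ _ hδ, finrank_euclideanSpace,
      Fintype.card_fin]
  rw [lintegral_congr h2, lintegral_const]

theorem rpow_le_add_sq {q : ℝ} (h1 : 1 ≤ q) (h2 : q ≤ 2) (x : ℝ≥0∞) : x ^ q ≤ x + x ^ 2 := by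
  rcases le_total x 1 with hx | hx
  · calc x ^ q ≤ x ^ (1 : ℝ) := ENNReal.rpow_le_rpow_of_exponent_ge hx h1
      _ = x := ENNReal.rpow_one x
      _ ≤ _ := le_self_add
  · calc x ^ q ≤ x ^ (2 : ℝ) := ENNReal.rpow_le_rpow_of_exponent_le hx h2
      _ = x ^ 2 := by rw [← ENNReal.rpow_natCast]; norm_num
      _ ≤ _ := le_add_self

/-- **The pairing.** -/
theorem pair_le [IsProbabilityMeasure μ] (hT : RP μ T C) : ∃ C1 : ℝ, 0 < C1 ∧
    ∀ (p : ℝ), 2 ≤ p → ∀ (s δ A : ℝ), s ≤ j → 0 < δ → δ < 1 → 0 ≤ A →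
    ∀ ν : Measure (EuclideanSpace ℝ (Fin N)), ν univ ≤ 1 →
      (∀ (y : EuclideanSpace ℝ (Fin N)) (r : ℝ), δ ≤ r →
        ν (closedBall y r) ≤ ENNReal.ofReal (A * r ^ s)) →
      ∀ M : Ω → EuclideanSpace ℝ (Fin j) → ℝ≥0∞, Measurable (Function.uncurry M) →
      (∫⁻ ω, ∫⁻ q, (ENNReal.ofReal (δ ^ j))⁻¹ *
          ∫⁻ σ in closedBall (T ω q) δ, M ω σ ∂volume ∂ν ∂μ) ^ p ≤
        (ENNReal.ofReal (δ ^ (-(j - s))) *
          ENNReal.ofReal (C1 * (A + 1) * (1 + Real.log (1 / δ))) ^ (p - 1)) *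
          ∫⁻ ω, ∫⁻ σ, M ω σ ^ p ∂volume ∂μ := by
  obtain ⟨C1, hC, hen⟩ := energy hT
  set w : ℝ≥0∞ := volume (closedBall (0 : EuclideanSpace ℝ (Fin j)) 1) with hw
  have hwt : w ≠ ∞ := measure_closedBall_lt_top.ne
  refine ⟨w.toReal + C1, by positivity, fun p hp s δ A hs hδ hδ1 hA ν hν hνA M hM => ?_⟩
  have hfin : IsFiniteMeasure ν := ⟨lt_of_le_of_lt hν ENNReal.one_lt_top⟩
  have hlog : 0 ≤ Real.log (1 / δ) := Real.log_nonneg (by rw [le_div_iff₀ hδ]; linarith)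
  set D : ℝ≥0∞ := ENNReal.ofReal (δ ^ j) with hDdef
  have hD0 : D ≠ 0 := by
    rw [hDdef]; exact (ENNReal.ofReal_pos.2 (by positivity)).ne'
  have hDt : D ≠ ∞ := ENNReal.ofReal_ne_top
  have hDit : D⁻¹ ≠ ∞ := ENNReal.inv_ne_top.2 hD0
  have hlam : 0 < δ ^ (-(j - s)) := Real.rpow_pos_of_pos hδ _
  set Λ : ℝ≥0∞ := ENNReal.ofReal (δ ^ (-(j - s))) with hΛ
  have hΛ0 : Λ ≠ 0 := (ENNReal.ofReal_pos.2 hlam).ne'
  have hΛt : Λ ≠ ∞ := ENNReal.ofReal_ne_top
  have hΛi : Λ⁻¹ ≠ ∞ := ENNReal.inv_ne_top.2 hΛ0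
  set h : Ω × EuclideanSpace ℝ (Fin j) → ℝ≥0∞ := fun z => D⁻¹ * hh ν T δ z.1 z.2 with hh'
  have hhm : Measurable fun z : Ω × EuclideanSpace ℝ (Fin j) => hh ν T δ z.1 z.2 :=
    meas_hh hT δ ν
  have hm : Measurable h := hhm.const_mul _
  have hMm : Measurable fun z : Ω × EuclideanSpace ℝ (Fin j) => M z.1 z.2 := hM
  -- rewriting as an integral over the product
  have e1 : ∫⁻ ω, ∫⁻ q, D⁻¹ * ∫⁻ σ in closedBall (T ω q) δ, M ω σ ∂volume ∂ν ∂μ =
      ∫⁻ z, ((fun z : Ω × EuclideanSpace ℝ (Fin j) => M z.1 z.2) * h) z ∂(μ.prod volume) := by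
    rw [lintegral_prod _ (hMm.mul hm).aemeasurable]
    refine lintegral_congr fun ω => ?_
    rw [lintegral_const_mul' _ _ hDit,
      swap_hh hT δ ν ω (M ω) (hMm.comp measurable_prodMk_left), ← lintegral_const_mul' _ _ hDit]
    refine lintegral_congr fun σ => ?_
    simp only [hh', Pi.mul_apply]
    ring
  -- the conjugate exponent
  set q : ℝ := p / (p - 1) with hq
  have hp1 : 1 < p := by linarith
  have hpq : p.HolderConjugate q := Real.HolderConjugate.conjExponent hp1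
  have hq1 : 1 ≤ q := by rw [hq, le_div_iff₀ (by linarith)]; linarith
  have hq2 : q ≤ 2 := by rw [hq, div_le_iff₀ (by linarith)]; linarith
  have e2 := ENNReal.lintegral_mul_le_Lp_mul_Lq (μ.prod volume) hpq hMm.aemeasurable hm.aemeasurable
  -- the integral of the power of h
  set G : ℝ≥0∞ := ENNReal.ofReal ((w.toReal + C1) * (A + 1) * (1 + Real.log (1 / δ))) with hG
  have e3 : ∫⁻ z, h z ^ q ∂(μ.prod volume) ≤ Λ ^ q * Λ⁻¹ * G := by
    have s1 : ∫⁻ z, h z ∂(μ.prod volume) ≤ w := by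
      rw [lintegral_prod _ hm.aemeasurable]
      have : ∀ ω, ∫⁻ σ, h (ω, σ) ≤ w := by
        intro ω
        simp only [hh']
        rw [lintegral_const_mul' _ _ hDit, lint_hh hT δ hδ.le ν ω, ← hw, ← hDdef, ← mul_assoc,
          ← mul_assoc, ENNReal.inv_mul_cancel hD0 hDt, one_mul]
        calc w * ν univ ≤ w * 1 := by gcongr
          _ = w := mul_one _
      refine (lintegral_mono this).trans ?_
      rw [lintegral_const, measure_univ, mul_one]
    have s2 : ∫⁻ z, h z ^ 2 ∂(μ.prod volume) ≤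
        ENNReal.ofReal (C1 * (A + 1) * (1 + Real.log (1 / δ))) * Λ := by
      rw [lintegral_prod _ (hm.pow_const 2).aemeasurable]
      have : ∀ ω, ∫⁻ σ, h (ω, σ) ^ 2 = (D⁻¹) ^ 2 * ∫⁻ σ, hh ν T δ ω σ ^ 2 := by
        intro ω
        rw [← lintegral_const_mul' _ _ (ENNReal.pow_ne_top hDit)]
        refine lintegral_congr fun σ => ?_
        simp only [hh', mul_pow]
      rw [lintegral_congr this, lintegral_const_mul' _ _ (ENNReal.pow_ne_top hDit)]
      refine (mul_le_mul_right (hen s δ A hs hδ hδ1 hA ν hν hνA) _).trans (le_of_eq ?_)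
      rw [hDdef, hΛ, ← ENNReal.ofReal_inv_of_pos (by positivity),
        ← ENNReal.ofReal_pow (by positivity), ← ENNReal.ofReal_mul (by positivity),
        ← ENNReal.ofReal_mul (by positivity)]
      congr 1
      have h1 : δ ^ (-(j - s)) = δ ^ s * (δ ^ j)⁻¹ := by
        rw [neg_sub, Real.rpow_sub hδ, Real.rpow_natCast, div_eq_mul_inv]
      rw [h1]
      have h2 : δ ^ j ≠ 0 := by positivity
      field_simp
    have s3 : ∀ z, h z ^ q ≤ Λ ^ q * (Λ⁻¹ * h z + (Λ⁻¹) ^ 2 * h z ^ 2) := by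
      intro z
      have h1 : h z = Λ * (Λ⁻¹ * h z) := by
        rw [← mul_assoc, ENNReal.mul_inv_cancel hΛ0 hΛt, one_mul]
      calc h z ^ q = (Λ * (Λ⁻¹ * h z)) ^ q := by rw [← h1]
        _ = Λ ^ q * (Λ⁻¹ * h z) ^ q := ENNReal.mul_rpow_of_nonneg _ _ (by linarith)
        _ ≤ Λ ^ q * (Λ⁻¹ * h z + (Λ⁻¹ * h z) ^ 2) := by
            gcongr
            exact rpow_le_add_sq hq1 hq2 _
        _ = _ := by rw [mul_pow]
    have hΛq : Λ ^ q ≠ ∞ := ENNReal.rpow_ne_top_of_nonneg (by linarith) hΛt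
    calc ∫⁻ z, h z ^ q ∂(μ.prod volume)
        ≤ ∫⁻ z, Λ ^ q * (Λ⁻¹ * h z + (Λ⁻¹) ^ 2 * h z ^ 2) ∂(μ.prod volume) := lintegral_mono s3
      _ = Λ ^ q * (Λ⁻¹ * ∫⁻ z, h z ∂(μ.prod volume) +
            (Λ⁻¹) ^ 2 * ∫⁻ z, h z ^ 2 ∂(μ.prod volume)) := by
          rw [lintegral_const_mul' _ _ hΛq, lintegral_add_left (hm.const_mul _),
            lintegral_const_mul' _ _ hΛi, lintegral_const_mul' _ _ (ENNReal.pow_ne_top hΛi)]
      _ ≤ Λ ^ q * (Λ⁻¹ * w + (Λ⁻¹) ^ 2 *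
            (ENNReal.ofReal (C1 * (A + 1) * (1 + Real.log (1 / δ))) * Λ)) := by gcongr
      _ = Λ ^ q * Λ⁻¹ * (w + ENNReal.ofReal (C1 * (A + 1) * (1 + Real.log (1 / δ)))) := by
          have h1 : (Λ⁻¹) ^ 2 * (ENNReal.ofReal (C1 * (A + 1) * (1 + Real.log (1 / δ))) * Λ) =
              Λ⁻¹ * ENNReal.ofReal (C1 * (A + 1) * (1 + Real.log (1 / δ))) := by
            calc _ = Λ⁻¹ * ENNReal.ofReal (C1 * (A + 1) * (1 + Real.log (1 / δ))) * (Λ⁻¹ * Λ) := by
                  ring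
              _ = _ := by rw [ENNReal.inv_mul_cancel hΛ0 hΛt, mul_one]
          rw [h1]
          ring
      _ ≤ Λ ^ q * Λ⁻¹ * G := by
          gcongr
          calc w + ENNReal.ofReal (C1 * (A + 1) * (1 + Real.log (1 / δ)))
              = ENNReal.ofReal (w.toReal + C1 * (A + 1) * (1 + Real.log (1 / δ))) := by
                rw [ENNReal.ofReal_add (by positivity) (by positivity), ENNReal.ofReal_toReal hwt]
            _ ≤ _ := by
                apply ENNReal.ofReal_le_ofReal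
                have h1 : (1 : ℝ) ≤ (A + 1) * (1 + Real.log (1 / δ)) :=
                  one_le_mul_of_one_le_of_one_le (by linarith) (by linarith)
                have h2 : 0 ≤ w.toReal := ENNReal.toReal_nonneg
                nlinarith
  have hpm : 0 ≤ p - 1 := by linarith
  have e4 : (Λ ^ q * Λ⁻¹) ^ (p - 1) = Λ := by
    have h1 : Λ⁻¹ = Λ ^ (-1 : ℝ) := (ENNReal.rpow_neg_one Λ).symm
    rw [h1, ← ENNReal.rpow_add _ _ hΛ0 hΛt, ← ENNReal.rpow_mul]
    have h2 : (q + -1) * (p - 1) = 1 := by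
      rw [hq]
      have : p - 1 ≠ 0 := by linarith
      field_simp
      ring
    rw [h2, ENNReal.rpow_one]
  rw [e1]
  calc (∫⁻ z, ((fun z : Ω × EuclideanSpace ℝ (Fin j) => M z.1 z.2) * h) z ∂(μ.prod volume)) ^ p
      ≤ ((∫⁻ z, M z.1 z.2 ^ p ∂(μ.prod volume)) ^ (1 / p) *
          (∫⁻ z, h z ^ q ∂(μ.prod volume)) ^ (1 / q)) ^ p :=
        ENNReal.rpow_le_rpow e2 (by linarith)
    _ = (∫⁻ z, M z.1 z.2 ^ p ∂(μ.prod volume)) * (∫⁻ z, h z ^ q ∂(μ.prod volume)) ^ (p - 1) := by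
        rw [ENNReal.mul_rpow_of_nonneg _ _ (by linarith), ← ENNReal.rpow_mul, ← ENNReal.rpow_mul]
        have h1 : 1 / p * p = 1 := by field_simp
        have h2 : 1 / q * p = p - 1 := by
          rw [hq]
          have : p - 1 ≠ 0 := by linarith
          field_simp
        rw [h1, h2, ENNReal.rpow_one]
    _ ≤ (∫⁻ z, M z.1 z.2 ^ p ∂(μ.prod volume)) * (Λ ^ q * Λ⁻¹ * G) ^ (p - 1) := by
        gcongr
    _ = (∫⁻ z, M z.1 z.2 ^ p ∂(μ.prod volume)) * (Λ * G ^ (p - 1)) := by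
        rw [ENNReal.mul_rpow_of_nonneg _ _ hpm, e4]
    _ = _ := by
        rw [mul_comm, lintegral_prod _ (hMm.pow_const p).aemeasurable]

end Pool.Agent.H224.BM
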