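import Pool.Agent.H224.BM.Chain
import Pool.Agent.H224.BM.Pair

/-!
# Bundles of parallel tubes
-/

set_option autoImplicit false

open MeasureTheory Set Metric Filter Topology
open scoped ENNReal NNReal

namespace Pool.Agent.H224.BM

open Pool.Agent.Q93.KF

variable {j m : ℕ}

/-- The centres of a bundle of parallel tubes in the direction `e`. -/
structure IsBundle {n : ℕ} (s A δ : ℝ) (e : E n) (ν : Measure (E n)) : Prop where
  mass : ν univ ≤ 1
  ball : ∀ (y : E n) (r : ℝ), δ ≤ r →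
    ν {a | ‖(a - y) - (inner ℝ (a - y) e : ℝ) • e‖ ≤ r} ≤ ENNReal.ofReal (A * r ^ s)

/-- the random projections -/
noncomputable def Tk (j m : ℕ) (k : On (j + m)) (q : E (j + m)) : E j :=
  P1 j m (act (j + m) k⁻¹ q)

theorem cont_P1 (j m : ℕ) : Continuous (P1 j m) := LinearMap.continuous_of_finiteDimensional _

theorem rp_Tk (j m : ℕ) (hN : 1 ≤ j + m) : ∃ C : ℝ, RP (ha (j + m)) (Tk j m) C := by
  obtain ⟨C, hC, h⟩ := proj_ha j m hN
  refine ⟨C, hC, ?_, ?_, fun q r hq hr => h q r hq hr⟩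
  · have h1 : Measurable fun q : On (j + m) × E (j + m) => (q.2, q.1) :=
      measurable_snd.prodMk measurable_fst
    have h2 := (meas_actv (j + m)).comp h1
    have h3 := (cont_P1 j m).measurable.comp h2
    exact h3
  · intro k a b
    unfold Tk
    rw [map_sub, map_sub]

theorem symm_inv {n : ℕ} (g : On n) : (act n g⁻¹).symm = act n g := by
  have h1 : act n g⁻¹ = (act n g)⁻¹ := map_inv (act n) g
  rw [h1]
  rfl

theorem act_inv_act {n : ℕ} (g : On n) (x : E n) : act n g (act n g⁻¹ x) = x := by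
  rw [← symm_inv g, LinearIsometryEquiv.symm_apply_apply]

theorem act_act_inv {n : ℕ} (g : On n) (x : E n) : act n g⁻¹ (act n g x) = x := by
  rw [← symm_inv g, LinearIsometryEquiv.apply_symm_apply]

theorem norm_perp_e0 {k : ℕ} (z : E (k + 1)) : ‖z - (inner ℝ z (e0 k) : ℝ) • e0 k‖ = ‖tl k z‖ := by
  have h1 := norm_tl (z - (inner ℝ z (e0 k) : ℝ) • e0 k)
  have h2 : (z - (inner ℝ z (e0 k) : ℝ) • e0 k) 0 = 0 := by
    rw [PiLp.sub_apply, PiLp.smul_apply, e0_zero, inner_e0, smul_eq_mul, mul_one, sub_self]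
  have h3 : tl k (z - (inner ℝ z (e0 k) : ℝ) • e0 k) = tl k z := by
    ext i
    rw [tl_apply, tl_apply, PiLp.sub_apply, PiLp.smul_apply, e0_succ, smul_zero, sub_zero]
  rw [h2, h3] at h1
  have h4 : ‖z - (inner ℝ z (e0 k) : ℝ) • e0 k‖ ^ 2 = ‖tl k z‖ ^ 2 := by rw [h1]; ring
  exact (pow_left_inj₀ (norm_nonneg _) (norm_nonneg _) two_ne_zero).1 h4

theorem norm_perp_act {k : ℕ} (g : On (k + 1)) (z : E (k + 1)) :
    ‖z - (inner ℝ z (act (k + 1) g⁻¹ (e0 k)) : ℝ) • act (k + 1) g⁻¹ (e0 k)‖ =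
      ‖tl k (act (k + 1) g z)‖ := by
  rw [← norm_perp_e0, ← LinearIsometryEquiv.norm_map (act (k + 1) g), map_sub, map_smul,
    act_inv_act]
  congr 3
  rw [← LinearIsometryEquiv.inner_map_map (act (k + 1) g), act_inv_act]

theorem exists_tl {k : ℕ} (y : E k) : ∃ z : E (k + 1), tl k z = y :=
  ⟨WithLp.toLp 2 (Fin.cons 0 fun i => y i), by ext i; simp [tl_apply]⟩

/-- the projection of the centres -/
noncomputable def pg {k : ℕ} (g : On (k + 1)) (a : E (k + 1)) : E k := tl k (act (k + 1) g a)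

theorem meas_pg {k : ℕ} (g : On (k + 1)) : Measurable (pg g) :=
  (cont_tl k).measurable.comp (act (k + 1) g).continuous.measurable

theorem push_ball {k : ℕ} {s A δ : ℝ} (g : On (k + 1)) {ν : Measure (E (k + 1))}
    (h : IsBundle s A δ (act (k + 1) g⁻¹ (e0 k)) ν) (y : E k) (r : ℝ) (hr : δ ≤ r) :
    (ν.map (pg g)) (closedBall y r) ≤ ENNReal.ofReal (A * r ^ s) := by
  rw [Measure.map_apply (meas_pg g) isClosed_closedBall.measurableSet]
  obtain ⟨z, hz⟩ := exists_tl y
  refine le_trans (measure_mono ?_) (h.ball (act (k + 1) g⁻¹ z) r hr)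
  intro a ha
  rw [mem_preimage, mem_closedBall, dist_eq_norm] at ha
  show ‖_‖ ≤ r
  rw [norm_perp_act, map_sub, map_sub, act_inv_act, hz]
  exact ha

theorem push_mass {k : ℕ} {s A δ : ℝ} (g : On (k + 1)) {ν : Measure (E (k + 1))}
    (h : IsBundle s A δ (act (k + 1) g⁻¹ (e0 k)) ν) : (ν.map (pg g)) univ ≤ 1 := by
  rw [Measure.map_apply (meas_pg g) MeasurableSet.univ, preimage_univ]
  exact h.mass

/-- the maximal function of the slices by a random plane containing the direction -/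
noncomputable def mk (F : E (j + m + 1) → ℝ≥0∞) (δ : ℝ) (g : On (j + m + 1)) (k : On (j + m))
    (σ : E j) : ℝ≥0∞ :=
  mx (fun x : E (m + 1) => F (act (j + m + 1) g⁻¹ (hat (act (j + m) k) (J x σ)))) δ (e0 m)

theorem mk_eq (F : E (j + m + 1) → ℝ≥0∞) (δ : ℝ) (k : On (j + m)) :
    ∃ l : On (j + m + 1), ∀ g σ, mk F δ g k σ = ms F δ (l * g) σ (e0 m) := by
  obtain ⟨l, hl⟩ := act_surj (hat (act (j + m) k))
  refine ⟨l⁻¹, fun g σ => ?_⟩
  have h2 : ∀ x : E (m + 1), F (act (j + m + 1) g⁻¹ (hat (act (j + m) k) (J x σ))) =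
      F (act (j + m + 1) (l⁻¹ * g)⁻¹ (J x σ)) := by
    intro x
    have h4 : act (j + m + 1) (l⁻¹ * g)⁻¹ (J x σ) =
        act (j + m + 1) g⁻¹ (act (j + m + 1) l (J x σ)) := by
      rw [mul_inv_rev, inv_inv, (act (j + m + 1)).map_mul]
      rfl
    rw [h4, hl]
  exact congrArg (fun G => mx G δ (e0 m)) (funext h2)

theorem meas_F3 {F : E (j + m + 1) → ℝ≥0∞} (hF : Measurable F) :
    Measurable fun q : (On (j + m + 1) × (On (j + m) × E j)) × E (m + 1) =>
      F (act (j + m + 1) q.1.1⁻¹ (hat (act (j + m) q.1.2.1) (J q.2 q.1.2.2))) := by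
  have h2 : Measurable fun q : (On (j + m + 1) × (On (j + m) × E j)) × E (m + 1) =>
      (q.2, q.1.2.2) :=
    measurable_snd.prodMk (measurable_snd.comp (measurable_snd.comp measurable_fst))
  have h1 := (meas_J j m).comp h2
  have h0 : Measurable fun q : (On (j + m + 1) × (On (j + m) × E j)) × E (m + 1) => q.1.2.1 :=
    measurable_fst.comp (measurable_snd.comp measurable_fst)
  have h3 := h1.prodMk h0
  have h4 := (meas_hat (j + m)).comp h3
  have h5 : Measurable fun q : (On (j + m + 1) × (On (j + m) × E j)) × E (m + 1) => q.1.1 :=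
    measurable_fst.comp measurable_fst
  have h6 := h4.prodMk h5
  have h7 := (meas_actv (j + m + 1)).comp h6
  exact hF.comp h7

theorem meas_mk {F : E (j + m + 1) → ℝ≥0∞} (hF : Measurable F) {δ : ℝ} (hδ : 0 < δ) :
    Measurable fun q : On (j + m + 1) × (On (j + m) × E j) => mk F δ q.1 q.2.1 q.2.2 :=
  meas_mx_param (meas_F3 hF) hδ (e0 m)

end Pool.Agent.H224.BM
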