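import Pool.Agent.H224.BM.Par

/-!
# The integral of the slices over the orthogonal group
-/

set_option autoImplicit false

open MeasureTheory Set Metric Filter Topology
open scoped ENNReal NNReal

namespace Pool.Agent.H224.BM

open Pool.Agent.Q93.KF

variable {j m : ℕ}

theorem meas_mx {n : ℕ} {F : E n → ℝ≥0∞} (hF : Measurable F) {δ : ℝ} (hδ : 0 < δ) :
    Measurable fun e : S n => mx F δ e := by
  have h3 : (fun e : S n => mx F δ e) = fun e : S n =>
      ⨆ m, av F δ (TopologicalSpace.denseSeq (E n) m) e := funext fun e => mx_eq_dense hF hδ e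
  rw [h3]
  exact Measurable.iSup fun m => meas_av measurable_const hF δ

/-- the maximal function of a slice -/
noncomputable def ms (F : E (j + m + 1) → ℝ≥0∞) (δ : ℝ) (g : On (j + m + 1)) (σ : E j)
    (e : E (m + 1)) : ℝ≥0∞ := mx (fun x : E (m + 1) => F (act (j + m + 1) g⁻¹ (J x σ))) δ e

/-- the integral of the powers of the maximal function of the slices -/
noncomputable def Psi (F : E (j + m + 1) → ℝ≥0∞) (δ p : ℝ) (g : On (j + m + 1)) : ℝ≥0∞ :=
  ∫⁻ σ : E j, ms F δ g σ (e0 m) ^ p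

/-- the first unit vector as a point of the sphere -/
noncomputable def e0S (k : ℕ) : S (k + 1) := ⟨e0 k, by rw [mem_sphere_zero_iff_norm, norm_e0]⟩

theorem meas_F1 {F : E (j + m + 1) → ℝ≥0∞} (hF : Measurable F) :
    Measurable fun q : (On (j + m + 1) × E j) × E (m + 1) =>
      F (act (j + m + 1) q.1.1⁻¹ (J q.2 q.1.2)) := by
  have h2 : Measurable fun q : (On (j + m + 1) × E j) × E (m + 1) => (q.2, q.1.2) :=
    measurable_snd.prodMk (measurable_snd.comp measurable_fst)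
  have h1 := (meas_J j m).comp h2
  have h0 : Measurable fun q : (On (j + m + 1) × E j) × E (m + 1) => q.1.1 :=
    measurable_fst.comp measurable_fst
  have h3 := h1.prodMk h0
  have h4 := (meas_actv (j + m + 1)).comp h3
  exact hF.comp h4

theorem meas_ms {F : E (j + m + 1) → ℝ≥0∞} (hF : Measurable F) {δ : ℝ} (hδ : 0 < δ) :
    Measurable fun q : On (j + m + 1) × E j => ms F δ q.1 q.2 (e0 m) :=
  meas_mx_param (meas_F1 hF) hδ (e0 m)

theorem meas_Psi {F : E (j + m + 1) → ℝ≥0∞} (hF : Measurable F) {δ : ℝ} (hδ : 0 < δ) (p : ℝ) :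
    Measurable (Psi (j := j) (m := m) F δ p) := by
  have h1 := (meas_ms (j := j) (m := m) hF hδ).pow_const p
  exact h1.lintegral_prod_right' (ν := (volume : Measure (E j)))

theorem ms_ac (F : E (j + m + 1) → ℝ≥0∞) (δ : ℝ) (g : On (j + m + 1)) (σ : E j) (k : On (m + 1)) :
    ms F δ g σ (ac k (e0S m)) =
      mx (fun x : E (m + 1) => F (act (j + m + 1) g⁻¹ (J (act (m + 1) k⁻¹ x) σ))) δ (e0 m) := by
  have h := mx_rotate (act (m + 1) k⁻¹)
    (fun x : E (m + 1) => F (act (j + m + 1) g⁻¹ (J x σ))) δ (e0 m)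
  exact h.symm

theorem meas_F2 {F : E (j + m + 1) → ℝ≥0∞} (hF : Measurable F) :
    Measurable fun q : (On (m + 1) × (On (j + m + 1) × E j)) × E (m + 1) =>
      F (act (j + m + 1) q.1.2.1⁻¹ (J (act (m + 1) q.1.1⁻¹ q.2) q.1.2.2)) := by
  have h : Measurable fun q : (On (m + 1) × (On (j + m + 1) × E j)) × E (m + 1) =>
      (q.2, q.1.1) := measurable_snd.prodMk (measurable_fst.comp measurable_fst)
  have h0 := (meas_actv (m + 1)).comp h
  have h2 : Measurable fun q : (On (m + 1) × (On (j + m + 1) × E j)) × E (m + 1) =>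
      q.1.2 := measurable_snd.comp measurable_fst
  have h1 := h2.prodMk h0
  have h5 := (meas_F1 (j := j) (m := m) hF).comp h1
  exact h5

theorem meas_ms2 {F : E (j + m + 1) → ℝ≥0∞} (hF : Measurable F) {δ : ℝ} (hδ : 0 < δ) :
    Measurable fun q : On (m + 1) × (On (j + m + 1) × E j) => ms F δ q.2.1 q.2.2 (ac q.1 (e0S m)) := by
  have h1 := meas_mx_param (meas_F2 (j := j) (m := m) hF) hδ (e0 m)
  have h2 : (fun q : On (m + 1) × (On (j + m + 1) × E j) =>
      ms F δ q.2.1 q.2.2 (ac q.1 (e0S m))) = fun q =>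
      mx (fun x : E (m + 1) => F (act (j + m + 1) q.2.1⁻¹ (J (act (m + 1) q.1⁻¹ x) q.2.2)))
        δ (e0 m) := funext fun q => ms_ac F δ q.2.1 q.2.2 q.1
  rw [h2]
  exact h1

/-- The rotation by an element of `O(m + 1)` in the first factor does not change the integral. -/
theorem lint_Psi_rot (F : E (j + m + 1) → ℝ≥0∞) (δ p : ℝ) (k : On (m + 1)) :
    ∫⁻ g, Psi (j := j) (m := m) F δ p g ∂ha (j + m + 1) =
      ∫⁻ g, ∫⁻ σ : E j, ms F δ g σ (ac k (e0S m)) ^ p ∂volume ∂ha (j + m + 1) := by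
  obtain ⟨l, hl⟩ := act_surj (bar (j := j) (act (m + 1) k⁻¹))
  have h1 := lintegral_mul_left_eq_self (μ := ha (j + m + 1))
    (fun g => Psi (j := j) (m := m) F δ p g) l⁻¹
  rw [← h1]
  refine lintegral_congr fun g => ?_
  unfold Psi
  refine lintegral_congr fun σ => ?_
  have h2 : ∀ x : E (m + 1), F (act (j + m + 1) (l⁻¹ * g)⁻¹ (J x σ)) =
      F (act (j + m + 1) g⁻¹ (J (act (m + 1) k⁻¹ x) σ)) := by
    intro x
    have h4 : act (j + m + 1) (l⁻¹ * g)⁻¹ (J x σ) =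
        act (j + m + 1) g⁻¹ (act (j + m + 1) l (J x σ)) := by
      rw [mul_inv_rev, inv_inv, (act (j + m + 1)).map_mul]
      rfl
    rw [h4, hl, bar_J]
  have h3 : ms F δ (l⁻¹ * g) σ (e0 m) = ms F δ g σ (ac k (e0S m)) := by
    rw [ms_ac]
    unfold ms
    exact congrArg (fun G => mx G δ (e0 m)) (funext h2)
  rw [h3]

/-- **The slices and the Kakeya maximal function of `ℝ^(m+1)`.** -/
theorem lint_Psi {F : E (j + m + 1) → ℝ≥0∞} (hF : Measurable F) {δ : ℝ} (hδ : 0 < δ) {p : ℝ}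
    {K : ℝ≥0∞} (hKt : K ≠ ∞) (hK : ∀ G : E (m + 1) → ℝ≥0∞, Measurable G →
      ∫⁻ e, mx G δ e ^ p ∂surf (m + 1) ≤ K * ∫⁻ x, G x ^ p) :
    surf (m + 1) univ * ∫⁻ g, Psi (j := j) (m := m) F δ p g ∂ha (j + m + 1) ≤
      K * ∫⁻ y, F y ^ p := by
  set W : On (m + 1) → On (j + m + 1) → E j → ℝ≥0∞ := fun k g σ =>
    ms F δ g σ (ac k (e0S m)) ^ p with hW
  have hWm : Measurable fun q : On (m + 1) × (On (j + m + 1) × E j) => W q.1 q.2.1 q.2.2 :=
    (meas_ms2 hF hδ).pow_const p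
  have e1 : ∫⁻ g, Psi (j := j) (m := m) F δ p g ∂ha (j + m + 1) =
      ∫⁻ k, ∫⁻ g, ∫⁻ σ, W k g σ ∂volume ∂ha (j + m + 1) ∂ha (m + 1) := by
    have h1 : ∀ k, ∫⁻ g, ∫⁻ σ, W k g σ ∂volume ∂ha (j + m + 1) =
        ∫⁻ g, Psi (j := j) (m := m) F δ p g ∂ha (j + m + 1) := fun k =>
      (lint_Psi_rot F δ p k).symm
    rw [lintegral_congr h1, lintegral_const, measure_univ, mul_one]
  have e2 : ∫⁻ k, ∫⁻ g, ∫⁻ σ, W k g σ ∂volume ∂ha (j + m + 1) ∂ha (m + 1) =
      ∫⁻ g, ∫⁻ σ, ∫⁻ k, W k g σ ∂ha (m + 1) ∂volume ∂ha (j + m + 1) := by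
    have h1 : ∫⁻ k, ∫⁻ g, ∫⁻ σ, W k g σ ∂volume ∂ha (j + m + 1) ∂ha (m + 1) =
        ∫⁻ k, ∫⁻ z, W k z.1 z.2 ∂((ha (j + m + 1)).prod volume) ∂ha (m + 1) := by
      refine lintegral_congr fun k => ?_
      have h2 : Measurable fun z : On (j + m + 1) × E j => W k z.1 z.2 := by
        have h3 := hWm.comp (measurable_prodMk_left (x := k))
        exact h3
      exact (lintegral_prod _ h2.aemeasurable).symm
    have h4 : ∫⁻ k, ∫⁻ z, W k z.1 z.2 ∂((ha (j + m + 1)).prod volume) ∂ha (m + 1) =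
        ∫⁻ z, ∫⁻ k, W k z.1 z.2 ∂ha (m + 1) ∂((ha (j + m + 1)).prod volume) :=
      lintegral_lintegral_swap hWm.aemeasurable
    have h5 : Measurable fun z : On (j + m + 1) × E j => ∫⁻ k, W k z.1 z.2 ∂ha (m + 1) :=
      hWm.lintegral_prod_left'
    rw [h1, h4]
    exact lintegral_prod _ h5.aemeasurable
  have e3 : ∀ (g : On (j + m + 1)) (σ : E j), surf (m + 1) univ * ∫⁻ k, W k g σ ∂ha (m + 1) ≤
      K * ∫⁻ x : E (m + 1), F (act (j + m + 1) g⁻¹ (J x σ)) ^ p := by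
    intro g σ
    have h1 : Measurable fun x : E (m + 1) => F (act (j + m + 1) g⁻¹ (J x σ)) := by
      have h2 := (meas_F1 (j := j) (m := m) hF).comp (measurable_prodMk_left (x := (g, σ)))
      exact h2
    have h3 : Measurable fun e : S (m + 1) => ms F δ g σ e ^ p := (meas_mx h1 hδ).pow_const p
    have h4 := lint_ac h3 (e0S m)
    rw [h4]
    exact hK _ h1
  have e4 : ∫⁻ g, ∫⁻ σ : E j, ∫⁻ x : E (m + 1), F (act (j + m + 1) g⁻¹ (J x σ)) ^ p
      ∂volume ∂volume ∂ha (j + m + 1) = ∫⁻ y, F y ^ p := by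
    have h1 : ∀ g : On (j + m + 1), ∫⁻ σ : E j, ∫⁻ x : E (m + 1),
        F (act (j + m + 1) g⁻¹ (J x σ)) ^ p = ∫⁻ y, F y ^ p := by
      intro g
      have h2 : Measurable fun y : E (j + m + 1) => F (act (j + m + 1) g⁻¹ y) ^ p :=
        (hF.comp (act (j + m + 1) g⁻¹).continuous.measurable).pow_const p
      have h3 : ∫⁻ y, F y ^ p = ∫⁻ y, F (act (j + m + 1) g⁻¹ y) ^ p :=
        ((act (j + m + 1) g⁻¹).measurePreserving.lintegral_comp (hF.pow_const p)).symm
      rw [h3, ← (mp_J j m).lintegral_comp h2, Measure.volume_eq_prod]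
      exact (lintegral_prod_symm' _ (h2.comp (mp_J j m).measurable)).symm
    rw [lintegral_congr h1, lintegral_const, measure_univ, mul_one]
  have hs : surf (m + 1) univ ≠ ∞ := surf_univ_ne_top _
  rw [e1, e2, ← e4, ← lintegral_const_mul' _ _ hs]
  rw [← lintegral_const_mul' _ _ hKt]
  refine lintegral_mono fun g => ?_
  rw [← lintegral_const_mul' _ _ hs, ← lintegral_const_mul' _ _ hKt]
  exact lintegral_mono fun σ => e3 g σ

end Pool.Agent.H224.BM
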