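import Mathlib

/-!
# The energy estimate for random projections of a measure

An abstract form: a random family `T ω` of linear maps `ℝ^N → ℝ^j` with
`μ {ω | ‖T ω q‖ ≤ r} ≤ C (r / ‖q‖) ^ j`.
-/

set_option autoImplicit false

open MeasureTheory Set Metric Filter Topology
open scoped ENNReal NNReal

namespace Pool.Agent.H224.BM

variable {N j : ℕ} {Ω : Type} [MeasurableSpace Ω] {μ : Measure Ω}

/-- A random family of projections. -/
structure RP (μ : Measure Ω) (T : Ω → EuclideanSpace ℝ (Fin N) → EuclideanSpace ℝ (Fin j))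
    (C : ℝ) : Prop where
  pos : 0 < C
  meas : Measurable fun q : Ω × EuclideanSpace ℝ (Fin N) => T q.1 q.2
  sub : ∀ ω a b, T ω (a - b) = T ω a - T ω b
  small : ∀ (q : EuclideanSpace ℝ (Fin N)) (r : ℝ), q ≠ 0 → 0 ≤ r →
    μ {ω | ‖T ω q‖ ≤ r} ≤ ENNReal.ofReal (C * (r / ‖q‖) ^ j)

/-- the kernel -/
noncomputable def Kn (μ : Measure Ω) (T : Ω → EuclideanSpace ℝ (Fin N) → EuclideanSpace ℝ (Fin j))
    (δ : ℝ) (q : EuclideanSpace ℝ (Fin N)) : ℝ≥0∞ :=
  μ {ω | ‖T ω q‖ ≤ 2 * δ}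

variable {T : Ω → EuclideanSpace ℝ (Fin N) → EuclideanSpace ℝ (Fin j)} {C : ℝ}

/-- dyadic bound of the kernel -/
theorem Kn_le [IsProbabilityMeasure μ] (hT : RP μ T C) : ∃ C1 : ℝ, 0 < C1 ∧
    ∀ (δ : ℝ) (M : ℕ), 0 < δ →
    1 ≤ 2 ^ M * δ → ∀ q : EuclideanSpace ℝ (Fin N), Kn μ T δ q ≤
      (∑ l ∈ Finset.range (M + 1), ENNReal.ofReal (C1 * ((2 : ℝ) ^ l)⁻¹ ^ j) *
        (closedBall (0 : EuclideanSpace ℝ (Fin N)) (2 ^ l * δ)).indicator 1 q) +
          ENNReal.ofReal (C1 * δ ^ j) := by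
  have hC := hT.pos
  set C1 : ℝ := max 1 (C * 4 ^ j) with hC1
  have hC10 : 0 < C1 := lt_of_lt_of_le one_pos (le_max_left _ _)
  refine ⟨C1, hC10, fun δ M hδ hM1 q => ?_⟩
  have hK1 : Kn μ T δ q ≤ 1 := prob_le_one
  by_cases hq0 : ‖q‖ ≤ δ
  · have h1 : ENNReal.ofReal (C1 * ((2 : ℝ) ^ 0)⁻¹ ^ j) *
        (closedBall (0 : EuclideanSpace ℝ (Fin N)) (2 ^ 0 * δ)).indicator 1 q ≤
        ∑ l ∈ Finset.range (M + 1), ENNReal.ofReal (C1 * ((2 : ℝ) ^ l)⁻¹ ^ j) *
        (closedBall (0 : EuclideanSpace ℝ (Fin N)) (2 ^ l * δ)).indicator 1 q :=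
      Finset.single_le_sum (f := fun l => ENNReal.ofReal (C1 * ((2 : ℝ) ^ l)⁻¹ ^ j) *
        (closedBall (0 : EuclideanSpace ℝ (Fin N)) (2 ^ l * δ)).indicator
          (1 : EuclideanSpace ℝ (Fin N) → ℝ≥0∞) q)
        (fun _ _ => zero_le) (Finset.mem_range.2 (Nat.succ_pos M))
    refine le_trans ?_ (h1.trans le_self_add)
    rw [indicator_of_mem (by rw [mem_closedBall_zero_iff]; simpa using hq0)]
    simp only [pow_zero, inv_one, one_pow, mul_one, Pi.one_apply]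
    refine hK1.trans ?_
    rw [← ENNReal.ofReal_one]
    exact ENNReal.ofReal_le_ofReal (le_max_left _ _)
  push Not at hq0
  have hqpos : 0 < ‖q‖ := hδ.trans hq0
  have hqne : q ≠ 0 := norm_pos_iff.1 hqpos
  have hK2 : Kn μ T δ q ≤ ENNReal.ofReal (C * (2 * δ / ‖q‖) ^ j) :=
    hT.small q (2 * δ) hqne (by positivity)
  by_cases hqN : ‖q‖ ≤ 2 ^ M * δ
  · -- a dyadic shell
    have hex : ∃ l, ‖q‖ ≤ 2 ^ l * δ := ⟨M, hqN⟩
    classical
    set l := Nat.find hex with hl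
    have hl1 : ‖q‖ ≤ 2 ^ l * δ := Nat.find_spec hex
    have hlN : l ≤ M := Nat.find_min' hex hqN
    have hl0 : l ≠ 0 := by
      intro h0
      rw [h0, pow_zero, one_mul] at hl1
      linarith
    obtain ⟨l', hl'⟩ := Nat.exists_eq_succ_of_ne_zero hl0
    have hl2 : ¬ ‖q‖ ≤ 2 ^ l' * δ := Nat.find_min hex (by rw [← hl, hl']; exact Nat.lt_succ_self _)
    push Not at hl2
    have h1 : ENNReal.ofReal (C1 * ((2 : ℝ) ^ l)⁻¹ ^ j) *
        (closedBall (0 : EuclideanSpace ℝ (Fin N)) (2 ^ l * δ)).indicator 1 q ≤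
        ∑ l ∈ Finset.range (M + 1), ENNReal.ofReal (C1 * ((2 : ℝ) ^ l)⁻¹ ^ j) *
        (closedBall (0 : EuclideanSpace ℝ (Fin N)) (2 ^ l * δ)).indicator 1 q :=
      Finset.single_le_sum (f := fun l => ENNReal.ofReal (C1 * ((2 : ℝ) ^ l)⁻¹ ^ j) *
        (closedBall (0 : EuclideanSpace ℝ (Fin N)) (2 ^ l * δ)).indicator
          (1 : EuclideanSpace ℝ (Fin N) → ℝ≥0∞) q)
        (fun _ _ => zero_le) (Finset.mem_range.2 (Nat.lt_succ_iff.2 hlN))
    refine le_trans ?_ (h1.trans le_self_add)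
    rw [indicator_of_mem (by rw [mem_closedBall_zero_iff]; exact hl1)]
    simp only [Pi.one_apply, mul_one]
    refine hK2.trans (ENNReal.ofReal_le_ofReal ?_)
    have h2 : 2 * δ / ‖q‖ ≤ 4 * ((2 : ℝ) ^ l)⁻¹ := by
      rw [div_le_iff₀ hqpos, hl', pow_succ, mul_inv]
      have h3 : (0 : ℝ) < 2 ^ l' := by positivity
      calc 2 * δ = 4 * (((2 : ℝ) ^ l')⁻¹ * 2⁻¹) * (2 ^ l' * δ) := by field_simp; ring
        _ ≤ 4 * (((2 : ℝ) ^ l')⁻¹ * 2⁻¹) * ‖q‖ := by gcongr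
    calc C * (2 * δ / ‖q‖) ^ j ≤ C * (4 * ((2 : ℝ) ^ l)⁻¹) ^ j := by gcongr
      _ = (C * 4 ^ j) * ((2 : ℝ) ^ l)⁻¹ ^ j := by rw [mul_pow]; ring
      _ ≤ C1 * ((2 : ℝ) ^ l)⁻¹ ^ j := by
          gcongr
          exact le_max_right _ _
  · push Not at hqN
    refine le_trans ?_ le_add_self
    refine hK2.trans (ENNReal.ofReal_le_ofReal ?_)
    have h2 : 2 * δ / ‖q‖ ≤ 4 * δ := by
      rw [div_le_iff₀ hqpos]
      have : 1 ≤ ‖q‖ := hM1.trans hqN.le
      nlinarith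
    calc C * (2 * δ / ‖q‖) ^ j ≤ C * (4 * δ) ^ j := by gcongr
      _ = (C * 4 ^ j) * δ ^ j := by rw [mul_pow]; ring
      _ ≤ C1 * δ ^ j := by
          gcongr
          exact le_max_right _ _

theorem cast_mul_ofReal (M : ℕ) (x : ℝ) :
    ((M + 1 : ℕ) : ℝ≥0∞) * ENNReal.ofReal x = ENNReal.ofReal (((M : ℝ) + 1) * x) := by
  rw [ENNReal.ofReal_mul (by positivity), ← ENNReal.ofReal_natCast]
  push_cast
  rfl

/-- integral of the kernel -/
theorem lint_Kn [IsProbabilityMeasure μ] (hT : RP μ T C) : ∃ C1 : ℝ, 0 < C1 ∧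
    ∀ (s δ A : ℝ), s ≤ j → 0 < δ → δ < 1 → 0 ≤ A →
    ∀ ν : Measure (EuclideanSpace ℝ (Fin N)), ν univ ≤ 1 →
      (∀ (y : EuclideanSpace ℝ (Fin N)) (r : ℝ), δ ≤ r →
        ν (closedBall y r) ≤ ENNReal.ofReal (A * r ^ s)) →
      ∀ a : EuclideanSpace ℝ (Fin N), ∫⁻ b, Kn μ T δ (a - b) ∂ν ≤
        ENNReal.ofReal (C1 * (A + 1) * (1 + Real.log (1 / δ)) * δ ^ s) := by
  obtain ⟨C1, hC, hKn⟩ := Kn_le hT
  refine ⟨4 * C1, by positivity, fun s δ A hs hδ hδ1 hA ν hν hνA a => ?_⟩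
  have hlog : 0 ≤ Real.log (1 / δ) := Real.log_nonneg (by rw [le_div_iff₀ hδ]; linarith)
  set M : ℕ := ⌈Real.logb 2 (1 / δ)⌉₊ with hMdef
  have hlogb0 : 0 ≤ Real.logb 2 (1 / δ) := Real.logb_nonneg (by norm_num) (by
    rw [le_div_iff₀ hδ]; linarith)
  have hM1 : 1 ≤ 2 ^ M * δ := by
    have h1 : Real.logb 2 (1 / δ) ≤ M := Nat.le_ceil _
    have h2 : 1 / δ ≤ 2 ^ M := by
      rw [← Real.rpow_natCast]
      exact (Real.logb_le_iff_le_rpow (by norm_num) (by positivity)).1 h1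
    rw [div_le_iff₀ hδ] at h2
    exact h2
  have hM2 : (M : ℝ) ≤ 2 * Real.log (1 / δ) + 1 := by
    have h1 : (M : ℝ) < Real.logb 2 (1 / δ) + 1 := Nat.ceil_lt_add_one hlogb0
    have h2 : Real.logb 2 (1 / δ) ≤ 2 * Real.log (1 / δ) := by
      rw [Real.logb, div_le_iff₀ (Real.log_pos (by norm_num))]
      have h3 := Real.log_two_gt_d9
      nlinarith
    linarith
  have hmeas : ∀ l : ℕ, Measurable fun b : EuclideanSpace ℝ (Fin N) =>
      (closedBall (0 : EuclideanSpace ℝ (Fin N)) (2 ^ l * δ)).indicator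
        (1 : EuclideanSpace ℝ (Fin N) → ℝ≥0∞) (a - b) := fun l =>
    (measurable_one.indicator isClosed_closedBall.measurableSet).comp (measurable_const.sub measurable_id)
  have step1 : ∫⁻ b, Kn μ T δ (a - b) ∂ν ≤
      ∫⁻ b, ((∑ l ∈ Finset.range (M + 1), ENNReal.ofReal (C1 * ((2 : ℝ) ^ l)⁻¹ ^ j) *
        (closedBall (0 : EuclideanSpace ℝ (Fin N)) (2 ^ l * δ)).indicator 1 (a - b)) +
          ENNReal.ofReal (C1 * δ ^ j)) ∂ν := lintegral_mono fun b => hKn δ M hδ hM1 (a - b)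
  have step2 : ∫⁻ b, ((∑ l ∈ Finset.range (M + 1), ENNReal.ofReal (C1 * ((2 : ℝ) ^ l)⁻¹ ^ j) *
        (closedBall (0 : EuclideanSpace ℝ (Fin N)) (2 ^ l * δ)).indicator 1 (a - b)) +
          ENNReal.ofReal (C1 * δ ^ j)) ∂ν =
      (∑ l ∈ Finset.range (M + 1), ENNReal.ofReal (C1 * ((2 : ℝ) ^ l)⁻¹ ^ j) *
        ν (closedBall a (2 ^ l * δ))) + ENNReal.ofReal (C1 * δ ^ j) * ν univ := by
    rw [lintegral_add_right _ measurable_const, lintegral_const,
      lintegral_finsetSum _ fun l _ => (hmeas l).const_mul _]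
    congr 1
    refine Finset.sum_congr rfl fun l _ => ?_
    rw [lintegral_const_mul _ (hmeas l)]
    congr 1
    rw [← lintegral_indicator_one isClosed_closedBall.measurableSet]
    refine lintegral_congr fun b => ?_
    by_cases hb : b ∈ closedBall a (2 ^ l * δ)
    · rw [indicator_of_mem hb, indicator_of_mem]
      · rfl
      · rw [mem_closedBall_zero_iff, ← dist_eq_norm, dist_comm]
        exact hb
    · rw [indicator_of_notMem hb, indicator_of_notMem]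
      intro h
      apply hb
      rw [mem_closedBall_zero_iff, ← dist_eq_norm, dist_comm] at h
      exact h
  have hδs : δ ^ j ≤ δ ^ s := by
    rw [← Real.rpow_natCast]
    exact Real.rpow_le_rpow_of_exponent_ge hδ hδ1.le hs
  have hδs0 : 0 < δ ^ s := Real.rpow_pos_of_pos hδ s
  have step3 : (∑ l ∈ Finset.range (M + 1), ENNReal.ofReal (C1 * ((2 : ℝ) ^ l)⁻¹ ^ j) *
        ν (closedBall a (2 ^ l * δ))) + ENNReal.ofReal (C1 * δ ^ j) * ν univ ≤
      (∑ l ∈ Finset.range (M + 1), ENNReal.ofReal (C1 * A * δ ^ s)) +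
        ENNReal.ofReal (C1 * δ ^ s) * 1 := by
    refine add_le_add (Finset.sum_le_sum fun l _ => ?_) (by gcongr)
    have h0 : (1 : ℝ) ≤ 2 ^ l := one_le_pow₀ (by norm_num)
    have h1 : ((2 : ℝ) ^ l)⁻¹ ^ j * (2 ^ l * δ) ^ s ≤ δ ^ s := by
      rw [Real.mul_rpow (by positivity) hδ.le, ← mul_assoc]
      have h2 : ((2 : ℝ) ^ l)⁻¹ ^ j * ((2 : ℝ) ^ l) ^ s ≤ 1 := by
        have h3 : ((2 : ℝ) ^ l) ^ s ≤ ((2 : ℝ) ^ l) ^ j := by
          rw [← Real.rpow_natCast ((2 : ℝ) ^ l) j]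
          exact Real.rpow_le_rpow_of_exponent_le h0 hs
        calc ((2 : ℝ) ^ l)⁻¹ ^ j * ((2 : ℝ) ^ l) ^ s ≤ ((2 : ℝ) ^ l)⁻¹ ^ j * ((2 : ℝ) ^ l) ^ j := by
              gcongr
          _ = 1 := by rw [← mul_pow, inv_mul_cancel₀ (by positivity), one_pow]
      calc ((2 : ℝ) ^ l)⁻¹ ^ j * ((2 : ℝ) ^ l) ^ s * δ ^ s ≤ 1 * δ ^ s := by gcongr
        _ = δ ^ s := one_mul _
    calc ENNReal.ofReal (C1 * ((2 : ℝ) ^ l)⁻¹ ^ j) * ν (closedBall a (2 ^ l * δ))
        ≤ ENNReal.ofReal (C1 * ((2 : ℝ) ^ l)⁻¹ ^ j) * ENNReal.ofReal (A * (2 ^ l * δ) ^ s) := by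
          gcongr
          refine hνA a (2 ^ l * δ) ?_
          nlinarith
      _ = ENNReal.ofReal (C1 * ((2 : ℝ) ^ l)⁻¹ ^ j * (A * (2 ^ l * δ) ^ s)) := by
          rw [← ENNReal.ofReal_mul (by positivity)]
      _ ≤ ENNReal.ofReal (C1 * A * δ ^ s) := by
          apply ENNReal.ofReal_le_ofReal
          calc C1 * ((2 : ℝ) ^ l)⁻¹ ^ j * (A * (2 ^ l * δ) ^ s)
              = C1 * A * (((2 : ℝ) ^ l)⁻¹ ^ j * (2 ^ l * δ) ^ s) := by ring
            _ ≤ C1 * A * δ ^ s := by gcongr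
  have step4 : (∑ l ∈ Finset.range (M + 1), ENNReal.ofReal (C1 * A * δ ^ s)) +
        ENNReal.ofReal (C1 * δ ^ s) * 1 =
      ENNReal.ofReal (((M : ℝ) + 1) * (C1 * A * δ ^ s) + C1 * δ ^ s) := by
    rw [Finset.sum_const, Finset.card_range, nsmul_eq_mul, mul_one,
      cast_mul_ofReal, ← ENNReal.ofReal_add (by positivity) (by positivity)]
  refine step1.trans (step2.le.trans (step3.trans (step4.le.trans ?_)))
  apply ENNReal.ofReal_le_ofReal
  have h1 : ((M : ℝ) + 1) * (C1 * A * δ ^ s) ≤ (2 * (1 + Real.log (1 / δ))) * (C1 * A * δ ^ s) := by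
    gcongr
    linarith
  have h2 : C1 * δ ^ s ≤ (1 + Real.log (1 / δ)) * (C1 * δ ^ s) :=
    le_mul_of_one_le_left (by positivity) (by linarith)
  have h3 : 0 ≤ (1 + Real.log (1 / δ)) * (C1 * δ ^ s) := by positivity
  have h4 : 0 ≤ (1 + Real.log (1 / δ)) * (C1 * A * δ ^ s) := by positivity
  nlinarith

/-- the fibre measure of a random projection -/
noncomputable def hh (ν : Measure (EuclideanSpace ℝ (Fin N)))
    (T : Ω → EuclideanSpace ℝ (Fin N) → EuclideanSpace ℝ (Fin j)) (δ : ℝ)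
    (ω : Ω) (σ : EuclideanSpace ℝ (Fin j)) : ℝ≥0∞ := ν {a | ‖σ - T ω a‖ ≤ δ}

theorem meas_D (hT : RP μ T C) (δ : ℝ) : MeasurableSet
    {q : (Ω × EuclideanSpace ℝ (Fin j)) × EuclideanSpace ℝ (Fin N) | ‖q.1.2 - T q.1.1 q.2‖ ≤ δ} := by
  have h1 : Measurable fun q : (Ω × EuclideanSpace ℝ (Fin j)) × EuclideanSpace ℝ (Fin N) =>
      T q.1.1 q.2 :=
    hT.meas.comp ((measurable_fst.comp measurable_fst).prodMk measurable_snd)
  have h2 : Measurable fun q : (Ω × EuclideanSpace ℝ (Fin j)) × EuclideanSpace ℝ (Fin N) =>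
      ‖q.1.2 - T q.1.1 q.2‖ :=
    ((measurable_snd.comp measurable_fst).sub h1).norm
  exact measurableSet_le h2 measurable_const

theorem meas_hh (hT : RP μ T C) (δ : ℝ) (ν : Measure (EuclideanSpace ℝ (Fin N))) [SFinite ν] :
    Measurable fun q : Ω × EuclideanSpace ℝ (Fin j) => hh ν T δ q.1 q.2 :=
  measurable_measure_prodMk_left (meas_D hT δ)

/-- **The energy estimate.** -/
theorem energy [IsProbabilityMeasure μ] (hT : RP μ T C) : ∃ C1 : ℝ, 0 < C1 ∧
    ∀ (s δ A : ℝ), s ≤ j → 0 < δ → δ < 1 → 0 ≤ A →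
    ∀ ν : Measure (EuclideanSpace ℝ (Fin N)), ν univ ≤ 1 →
      (∀ (y : EuclideanSpace ℝ (Fin N)) (r : ℝ), δ ≤ r →
        ν (closedBall y r) ≤ ENNReal.ofReal (A * r ^ s)) →
      ∫⁻ ω, ∫⁻ σ, (hh ν T δ ω σ) ^ 2 ∂volume ∂μ ≤
        ENNReal.ofReal (C1 * (A + 1) * (1 + Real.log (1 / δ)) * (δ ^ j * δ ^ s)) := by
  obtain ⟨C1, hC, hKn⟩ := lint_Kn hT
  set w : ℝ≥0∞ := volume (closedBall (0 : EuclideanSpace ℝ (Fin j)) 1) with hw
  have hwt : w ≠ ∞ := measure_closedBall_lt_top.ne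
  refine ⟨w.toReal * C1 + 1, by positivity, fun s δ A hs hδ hδ1 hA ν hν hνA => ?_⟩
  have hfin : IsFiniteMeasure ν := ⟨lt_of_le_of_lt hν ENNReal.one_lt_top⟩
  have hlog : 0 ≤ Real.log (1 / δ) := Real.log_nonneg (by rw [le_div_iff₀ hδ]; linarith)
  -- the indicator
  set D : Set ((Ω × EuclideanSpace ℝ (Fin j)) × EuclideanSpace ℝ (Fin N)) :=
    {q | ‖q.1.2 - T q.1.1 q.2‖ ≤ δ} with hD
  have hDm : MeasurableSet D := meas_D hT δ
  set I : (Ω × EuclideanSpace ℝ (Fin j)) × (EuclideanSpace ℝ (Fin N) × EuclideanSpace ℝ (Fin N)) →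
      ℝ≥0∞ := fun q => D.indicator 1 (q.1, q.2.1) * D.indicator 1 (q.1, q.2.2) with hI
  have hIm : Measurable I := by
    have g0 : Measurable (D.indicator
      (1 : (Ω × EuclideanSpace ℝ (Fin j)) × EuclideanSpace ℝ (Fin N) → ℝ≥0∞)) :=
      measurable_one.indicator hDm
    have g1 : Measurable fun q : (Ω × EuclideanSpace ℝ (Fin j)) ×
        (EuclideanSpace ℝ (Fin N) × EuclideanSpace ℝ (Fin N)) => (q.1, q.2.1) :=
      measurable_fst.prodMk (measurable_fst.comp measurable_snd)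
    have g2 : Measurable fun q : (Ω × EuclideanSpace ℝ (Fin j)) ×
        (EuclideanSpace ℝ (Fin N) × EuclideanSpace ℝ (Fin N)) => (q.1, q.2.2) :=
      measurable_fst.prodMk (measurable_snd.comp measurable_snd)
    exact (g0.comp g1).mul (g0.comp g2)
  have hsq : ∀ (k : Ω) (σ : EuclideanSpace ℝ (Fin j)),
      (hh ν T δ k σ) ^ 2 = ∫⁻ p, I ((k, σ), p) ∂(ν.prod ν) := by
    intro k σ
    have hmk : Measurable (fun a : EuclideanSpace ℝ (Fin N) => ((k, σ), a)) := measurable_prodMk_left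
    have h2 : MeasurableSet ((fun a : EuclideanSpace ℝ (Fin N) => ((k, σ), a)) ⁻¹' D) := hmk hDm
    have g0 : Measurable (D.indicator
      (1 : (Ω × EuclideanSpace ℝ (Fin j)) × EuclideanSpace ℝ (Fin N) → ℝ≥0∞)) :=
      measurable_one.indicator hDm
    have h3 : Measurable fun a => D.indicator
        (1 : (Ω × EuclideanSpace ℝ (Fin j)) × EuclideanSpace ℝ (Fin N) → ℝ≥0∞) ((k, σ), a) :=
      g0.comp hmk
    have h4 : ∫⁻ p, I ((k, σ), p) ∂(ν.prod ν) =
        (∫⁻ a, D.indicator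
          (1 : (Ω × EuclideanSpace ℝ (Fin j)) × EuclideanSpace ℝ (Fin N) → ℝ≥0∞) ((k, σ), a) ∂ν) *
        (∫⁻ a, D.indicator
          (1 : (Ω × EuclideanSpace ℝ (Fin j)) × EuclideanSpace ℝ (Fin N) → ℝ≥0∞) ((k, σ), a) ∂ν) :=
      lintegral_prod_mul h3.aemeasurable h3.aemeasurable
    have h5 : ∫⁻ a, D.indicator
          (1 : (Ω × EuclideanSpace ℝ (Fin j)) × EuclideanSpace ℝ (Fin N) → ℝ≥0∞) ((k, σ), a) ∂ν =
        hh ν T δ k σ := by
      have h6 : hh ν T δ k σ = ν ((fun a : EuclideanSpace ℝ (Fin N) => ((k, σ), a)) ⁻¹' D) := rfl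
      rw [h6, ← lintegral_indicator_one h2]
      rfl
    rw [h4, sq, h5]
  have e1 : ∫⁻ k, ∫⁻ σ, (hh ν T δ k σ) ^ 2 ∂volume ∂μ =
      ∫⁻ k, ∫⁻ σ, ∫⁻ p, I ((k, σ), p) ∂(ν.prod ν) ∂volume ∂μ :=
    lintegral_congr fun k => lintegral_congr fun σ => hsq k σ
  -- swap
  have hswap1 : ∀ k : Ω, ∫⁻ σ, ∫⁻ p, I ((k, σ), p) ∂(ν.prod ν) ∂volume =
      ∫⁻ p, ∫⁻ σ, I ((k, σ), p) ∂volume ∂(ν.prod ν) := by
    intro k
    refine lintegral_lintegral_swap ?_
    have h1 : Measurable fun q : EuclideanSpace ℝ (Fin j) ×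
        (EuclideanSpace ℝ (Fin N) × EuclideanSpace ℝ (Fin N)) => I ((k, q.1), q.2) :=
      hIm.comp ((measurable_const.prodMk measurable_fst).prodMk measurable_snd)
    exact h1.aemeasurable
  have e2 : ∫⁻ k, ∫⁻ σ, ∫⁻ p, I ((k, σ), p) ∂(ν.prod ν) ∂volume ∂μ =
      ∫⁻ k, ∫⁻ p, ∫⁻ σ, I ((k, σ), p) ∂volume ∂(ν.prod ν) ∂μ :=
    lintegral_congr fun k => hswap1 k
  have hswap2 : ∫⁻ k, ∫⁻ p, ∫⁻ σ, I ((k, σ), p) ∂volume ∂(ν.prod ν) ∂μ =
      ∫⁻ p, ∫⁻ k, ∫⁻ σ, I ((k, σ), p) ∂volume ∂μ ∂(ν.prod ν) := by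
    refine lintegral_lintegral_swap ?_
    have h1 : Measurable fun q : (Ω × (EuclideanSpace ℝ (Fin N) × EuclideanSpace ℝ (Fin N))) ×
        EuclideanSpace ℝ (Fin j) => I ((q.1.1, q.2), q.1.2) :=
      hIm.comp (((measurable_fst.comp measurable_fst).prodMk measurable_snd).prodMk
        (measurable_snd.comp measurable_fst))
    exact h1.lintegral_prod_right'.aemeasurable
  rw [e1, e2, hswap2]
  -- the inner integrals
  have hin : ∀ p : EuclideanSpace ℝ (Fin N) × EuclideanSpace ℝ (Fin N),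
      ∫⁻ k, ∫⁻ σ, I ((k, σ), p) ∂volume ∂μ ≤
      ENNReal.ofReal (w.toReal * δ ^ j) * Kn μ T δ (p.1 - p.2) := by
    rintro ⟨a, b⟩
    have hset : MeasurableSet {k : Ω | ‖T k (a - b)‖ ≤ 2 * δ} := by
      have h1 : Measurable fun k : Ω => T k (a - b) :=
        hT.meas.comp (measurable_id.prodMk measurable_const)
      exact measurableSet_le h1.norm measurable_const
    have h1 : ∀ k : Ω, ∫⁻ σ, I ((k, σ), (a, b)) ∂volume ≤
        ENNReal.ofReal (w.toReal * δ ^ j) *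
          {k : Ω | ‖T k (a - b)‖ ≤ 2 * δ}.indicator 1 k := by
      intro k
      have hvol : volume (closedBall (T k a) δ) = ENNReal.ofReal (w.toReal * δ ^ j) := by
        rw [Measure.addHaar_closedBall' _ _ hδ.le, finrank_euclideanSpace, Fintype.card_fin, ← hw,
          mul_comm w.toReal, ENNReal.ofReal_mul (by positivity), ENNReal.ofReal_toReal hwt]
      by_cases hk : k ∈ {k : Ω | ‖T k (a - b)‖ ≤ 2 * δ}
      · rw [indicator_of_mem hk, Pi.one_apply, mul_one, ← hvol]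
        rw [← lintegral_indicator_one isClosed_closedBall.measurableSet]
        refine lintegral_mono fun σ => ?_
        by_cases hσ : σ ∈ closedBall (T k a) δ
        · rw [indicator_of_mem hσ, Pi.one_apply]
          simp only [hI]
          have h2 : ∀ q, D.indicator
              (1 : (Ω × EuclideanSpace ℝ (Fin j)) × EuclideanSpace ℝ (Fin N) → ℝ≥0∞) q ≤ 1 :=
            fun q => indicator_le_self' (fun _ _ => zero_le) q
          exact mul_le_one' (h2 _) (h2 _)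
        · have h2 : ((k, σ), a) ∉ D := by
            intro h
            apply hσ
            rw [mem_closedBall, dist_eq_norm]
            exact h
          simp only [hI]
          rw [indicator_of_notMem h2, zero_mul]
          exact zero_le
      · rw [indicator_of_notMem hk, mul_zero]
        refine le_of_eq ?_
        have h2 : ∀ σ, I ((k, σ), (a, b)) = 0 := by
          intro σ
          by_contra hne
          apply hk
          simp only [hI] at hne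
          obtain ⟨h3, h4⟩ := mul_ne_zero_iff.1 hne
          have h5 : ((k, σ), a) ∈ D := by
            by_contra h
            exact h3 (indicator_of_notMem h _)
          have h6 : ((k, σ), b) ∈ D := by
            by_contra h
            exact h4 (indicator_of_notMem h _)
          have h7 : ‖σ - T k a‖ ≤ δ := h5
          have h8 : ‖σ - T k b‖ ≤ δ := h6
          show ‖T k (a - b)‖ ≤ 2 * δ
          rw [hT.sub]
          have h9 : T k a - T k b = (σ - T k b) - (σ - T k a) := by abel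
          rw [h9]
          refine (norm_sub_le _ _).trans ?_
          linarith
        simp only [h2, lintegral_zero]
    refine (lintegral_mono h1).trans ?_
    rw [lintegral_const_mul _ (measurable_one.indicator hset), lintegral_indicator_one hset]
    rfl
  refine (lintegral_mono hin).trans ?_
  have hKm : Measurable fun p : EuclideanSpace ℝ (Fin N) × EuclideanSpace ℝ (Fin N) =>
      Kn μ T δ (p.1 - p.2) := by
    have h1 : MeasurableSet {q : (EuclideanSpace ℝ (Fin N) × EuclideanSpace ℝ (Fin N)) × Ω |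
        ‖T q.2 (q.1.1 - q.1.2)‖ ≤ 2 * δ} := by
      have h2 : Measurable fun q : (EuclideanSpace ℝ (Fin N) × EuclideanSpace ℝ (Fin N)) × Ω =>
          T q.2 (q.1.1 - q.1.2) :=
        hT.meas.comp (measurable_snd.prodMk
          ((measurable_fst.comp measurable_fst).sub (measurable_snd.comp measurable_fst)))
      exact measurableSet_le h2.norm measurable_const
    exact measurable_measure_prodMk_left h1
  rw [lintegral_const_mul _ hKm, lintegral_prod _ hKm.aemeasurable]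
  have h5 : ∫⁻ a, ∫⁻ b, Kn μ T δ (a - b) ∂ν ∂ν ≤
      ENNReal.ofReal (C1 * (A + 1) * (1 + Real.log (1 / δ)) * δ ^ s) := by
    refine (lintegral_mono fun a => hKn s δ A hs hδ hδ1 hA ν hν hνA a).trans ?_
    rw [lintegral_const]
    calc _ ≤ ENNReal.ofReal (C1 * (A + 1) * (1 + Real.log (1 / δ)) * δ ^ s) * 1 := by gcongr
      _ = _ := mul_one _
  refine (mul_le_mul_right h5 _).trans ?_
  rw [← ENNReal.ofReal_mul (by positivity)]
  apply ENNReal.ofReal_le_ofReal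
  have h6 : w.toReal * δ ^ j * (C1 * (A + 1) * (1 + Real.log (1 / δ)) * δ ^ s) =
      (w.toReal * C1) * ((A + 1) * (1 + Real.log (1 / δ)) * (δ ^ j * δ ^ s)) := by ring
  have hδs0 : 0 < δ ^ s := Real.rpow_pos_of_pos hδ s
  have h7 : 0 ≤ (A + 1) * (1 + Real.log (1 / δ)) * (δ ^ j * δ ^ s) := by positivity
  rw [h6]
  nlinarith

end Pool.Agent.H224.BM
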