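import Pool.Agent.H224.BM.Main

/-!
# A measurable majorant
-/

set_option autoImplicit false

open MeasureTheory Set Metric Filter Topology
open scoped ENNReal NNReal

namespace Pool.Agent.H224.BM

open Pool.Agent.Q93.KF

variable {j m : ℕ}

/-- the inclusion of the coordinates other than the first -/
noncomputable def inc (N : ℕ) : E N →ₗ[ℝ] E (N + 1) where
  toFun y := WithLp.toLp 2 (Fin.cons 0 fun i => y i)
  map_add' x y := by
    ext i
    refine Fin.cases ?_ (fun i => ?_) i <;> simp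
  map_smul' r x := by
    ext i
    refine Fin.cases ?_ (fun i => ?_) i <;> simp

theorem inc_zero {N : ℕ} (y : E N) : inc N y 0 = 0 := rfl

theorem tl_inc {N : ℕ} (y : E N) : tl N (inc N y) = y := by
  ext i
  rfl

theorem norm_inc {N : ℕ} (y : E N) : ‖inc N y‖ ^ 2 = ‖y‖ ^ 2 := by
  rw [norm_tl, inc_zero, tl_inc]
  ring

theorem fix_zero {N : ℕ} (φ : E (N + 1) ≃ₗᵢ[ℝ] E (N + 1)) (hφ : φ (e0 N) = e0 N)
    (y : E (N + 1)) : φ y 0 = y 0 := by
  rw [← inner_e0, ← inner_e0]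
  calc inner ℝ (φ y) (e0 N) = inner ℝ (φ y) (φ (e0 N)) := by rw [hφ]
    _ = inner ℝ y (e0 N) := LinearIsometryEquiv.inner_map_map φ _ _

theorem split_e0 {N : ℕ} (y : E (N + 1)) : y = (y 0) • e0 N + inc N (tl N y) := by
  refine eq_of_zero_tl ?_ ?_
  · rw [PiLp.add_apply, PiLp.smul_apply, e0_zero, inc_zero, smul_eq_mul, mul_one, add_zero]
  · rw [map_add, map_smul, tl_inc]
    have h1 : tl N (e0 N) = 0 := by
      ext i
      rw [tl_apply, e0_succ]
      rfl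
    rw [h1, smul_zero, zero_add]

/-- An isometry which fixes the first unit vector acts on the other coordinates. -/
theorem exists_hat {N : ℕ} (φ : E (N + 1) ≃ₗᵢ[ℝ] E (N + 1)) (hφ : φ (e0 N) = e0 N) :
    ∃ L : E N ≃ₗᵢ[ℝ] E N, hat L = φ := by
  set ψ : E N →ₗ[ℝ] E N := (tl N).comp ((φ : E (N + 1) ≃ₗ[ℝ] E (N + 1)).toLinearMap.comp (inc N))
    with hψ
  have hψa : ∀ y, ψ y = tl N (φ (inc N y)) := fun y => rfl
  have hn : ∀ y, ‖ψ y‖ = ‖y‖ := by
    intro y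
    have h1 : ‖ψ y‖ ^ 2 = ‖y‖ ^ 2 := by
      have h2 := norm_tl (φ (inc N y))
      rw [fix_zero φ hφ, inc_zero, LinearIsometryEquiv.norm_map, norm_inc, ← hψa] at h2
      rw [h2]
      ring
    exact (pow_left_inj₀ (norm_nonneg _) (norm_nonneg _) two_ne_zero).1 h1
  refine ⟨LinearIsometry.toLinearIsometryEquiv ⟨ψ, hn⟩ rfl, ?_⟩
  ext1 y
  refine eq_of_zero_tl ?_ ?_
  · rw [fix_zero φ hφ]
    rfl
  · rw [hat_apply, tl_hatl]
    show tl N (φ (inc N (tl N y))) = tl N (φ y)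
    conv_rhs => rw [split_e0 y, map_add, map_smul, hφ, map_add, map_smul]
    have h1 : tl N (e0 N) = 0 := by
      ext i
      rw [tl_apply, e0_succ]
      rfl
    rw [h1, smul_zero, zero_add]

/-- the integral of the powers of the maximal function of the slices by the planes containing
a direction -/
noncomputable def Gm (F : E (j + m + 1) → ℝ≥0∞) (δ p : ℝ) (g : On (j + m + 1)) : ℝ≥0∞ :=
  ∫⁻ k, ∫⁻ σ, mk (j := j) (m := m) F δ g k σ ^ p ∂volume ∂ha (j + m)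

theorem meas_Gm {F : E (j + m + 1) → ℝ≥0∞} (hF : Measurable F) {δ : ℝ} (hδ : 0 < δ) (p : ℝ) :
    Measurable (Gm (j := j) (m := m) F δ p) :=
  (meas_mk_int hF hδ p).lintegral_prod_right'

/-- `Gm g` depends on `g⁻¹ e₀` only. -/
theorem Gm_inv (F : E (j + m + 1) → ℝ≥0∞) (δ p : ℝ) (g g' : On (j + m + 1))
    (h : act (j + m + 1) g⁻¹ (e0 (j + m)) = act (j + m + 1) g'⁻¹ (e0 (j + m))) :
    Gm (j := j) (m := m) F δ p g = Gm (j := j) (m := m) F δ p g' := by
  -- `g⁻¹ = g'⁻¹ ∘ hat L`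
  have h1 : ((act (j + m + 1) g⁻¹).trans (act (j + m + 1) g')) (e0 (j + m)) = e0 (j + m) := by
    show act (j + m + 1) g' (act (j + m + 1) g⁻¹ (e0 (j + m))) = e0 (j + m)
    rw [h, act_inv_act]
  obtain ⟨L, hL⟩ := exists_hat _ h1
  obtain ⟨l, hl⟩ := act_surj L
  have h2 : ∀ y, act (j + m + 1) g⁻¹ y = act (j + m + 1) g'⁻¹ (hat L y) := by
    intro y
    rw [hL]
    show _ = act (j + m + 1) g'⁻¹ (act (j + m + 1) g' (act (j + m + 1) g⁻¹ y))
    rw [act_act_inv]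
  have h3 : ∀ k σ, mk (j := j) (m := m) F δ g k σ = mk F δ g' (l * k) σ := by
    intro k σ
    have h4 : ∀ x : E (m + 1), F (act (j + m + 1) g⁻¹ (hat (act (j + m) k) (J x σ))) =
        F (act (j + m + 1) g'⁻¹ (hat (act (j + m) (l * k)) (J x σ))) := by
      intro x
      rw [h2]
      congr 2
      refine eq_of_zero_tl rfl ?_
      rw [hat_apply, hat_apply, hat_apply, tl_hatl, tl_hatl, tl_hatl, (act (j + m)).map_mul, hl]
      rfl
    exact congrArg (fun G => mx G δ (e0 m)) (funext h4)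
  unfold Gm
  have h5 := lintegral_mul_left_eq_self (μ := ha (j + m))
    (fun k => ∫⁻ σ, mk (j := j) (m := m) F δ g' k σ ^ p) l
  rw [← h5]
  refine lintegral_congr fun k => lintegral_congr fun σ => ?_
  rw [h3]


theorem exists_section {k : ℕ} (e : S (k + 1)) : ∃ g : On (k + 1), act (k + 1) g⁻¹ (e0 k) = e := by
  obtain ⟨l, hl⟩ := act_trans (e0 k) (e : E (k + 1)) (norm_e0 k) (by simp)
  exact ⟨l⁻¹, by rw [inv_inv]; exact hl⟩

theorem surj_ac (k : ℕ) : Function.Surjective fun g : On (k + 1) => ac g (e0S k) := by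
  intro e
  obtain ⟨g, hg⟩ := exists_section e
  exact ⟨g, Subtype.ext hg⟩

theorem meas_ac0 (k : ℕ) : Measurable fun g : On (k + 1) => ac g (e0S k) := by
  have h1 : Measurable fun g : On (k + 1) => ((e0S k, g) : S (k + 1) × On (k + 1)) :=
    measurable_const.prodMk measurable_id
  have h2 := (measurable_ac (n := k + 1)).comp h1
  exact h2

instance sb_On (n : ℕ) : StandardBorelSpace (On n) := by
  have h : PolishSpace (On n) := inferInstance
  infer_instance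

/-- **The estimate.** -/
theorem main_maj (j m : ℕ) (hN : 1 ≤ j + m) : ∃ C : ℝ, 0 < C ∧
    ∀ p : ℝ, 2 ≤ p → ∀ s δ A : ℝ, s ≤ j → 0 < δ → δ < 1 → 0 ≤ A → ∀ K : ℝ≥0∞,
    (∀ G : E (m + 1) → ℝ≥0∞, Measurable G →
      ∫⁻ e, mx G δ e ^ p ∂surf (m + 1) ≤ K * ∫⁻ x, G x ^ p) → K ≠ ∞ →
    ∀ F : E (j + m + 1) → ℝ≥0∞, Measurable F →
      ∃ M : S (j + m + 1) → ℝ≥0∞, Measurable M ∧ (∀ e : S (j + m + 1), bmax s A F δ e ^ p ≤ M e) ∧
      ∫⁻ e, M e ∂surf (j + m + 1) ≤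
        ENNReal.ofReal (C ^ p * ((A + 1) * (1 + Real.log (1 / δ))) ^ (p - 1) * δ ^ (-(j - s))) *
          (K * ∫⁻ y, F y ^ p) := by
  obtain ⟨κ, C1, hκ, hC1, hB⟩ := bundle_le j m hN
  set s' := surf (m + 1) univ with hs'
  have hs0 : s' ≠ 0 := surf_univ_ne_zero (by omega)
  have hst : s' ≠ ∞ := surf_univ_ne_top _
  set S0 := surf (j + m + 1) univ with hS
  have hSt : S0 ≠ ∞ := surf_univ_ne_top _
  set C : ℝ := max 1 (S0 * s'⁻¹).toReal * (κ * max 1 C1) with hC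
  have hCpos : 0 < C := by positivity
  refine ⟨C, hCpos, fun p hp s δ A hs hδ hδ1 hA K hmax hK F hF => ?_⟩
  have hlog : 0 ≤ Real.log (1 / δ) := Real.log_nonneg (by rw [le_div_iff₀ hδ]; linarith)
  have hlam : 0 < δ ^ (-(j - s)) := Real.rpow_pos_of_pos hδ _
  set B : ℝ≥0∞ := ENNReal.ofReal κ ^ p * (ENNReal.ofReal (δ ^ (-(j - s))) *
    ENNReal.ofReal (C1 * (A + 1) * (1 + Real.log (1 / δ))) ^ (p - 1)) with hBdef
  have hBt : B ≠ ∞ := ENNReal.mul_ne_top
    (ENNReal.rpow_ne_top_of_nonneg (by linarith) ENNReal.ofReal_ne_top)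
    (ENNReal.mul_ne_top ENNReal.ofReal_ne_top
      (ENNReal.rpow_ne_top_of_nonneg (by linarith) ENNReal.ofReal_ne_top))
  choose l hl using fun e : S (j + m + 1) => exists_section e
  set M : S (j + m + 1) → ℝ≥0∞ := fun e => B * Gm (j := j) (m := m) F δ p (l e) with hM
  have hMac : ∀ g : On (j + m + 1), M (ac g (e0S (j + m))) = B * Gm (j := j) (m := m) F δ p g := by
    intro g
    simp only [hM]
    congr 1
    refine Gm_inv F δ p _ _ ?_
    rw [hl]
    rfl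
  have hMm : Measurable M := by
    have h1 : Measurable (M ∘ fun g : On (j + m + 1) => ac g (e0S (j + m))) := by
      have h2 : (M ∘ fun g : On (j + m + 1) => ac g (e0S (j + m))) =
          fun g => B * Gm (j := j) (m := m) F δ p g := funext hMac
      rw [h2]
      exact (meas_Gm hF hδ p).const_mul B
    exact ((meas_ac0 (j + m)).measurable_comp_iff_of_surjective (surj_ac (j + m))).1 h1
  refine ⟨M, hMm, ?_, ?_⟩
  · intro e
    have hp0 : 0 < p := by linarith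
    rw [← ENNReal.le_rpow_inv_iff hp0]
    refine iSup₂_le fun ν hν => ?_
    rw [ENNReal.le_rpow_inv_iff hp0]
    simp only [hM, hBdef]
    rw [mul_assoc]
    have h1 := hB p hp s δ A hs hδ hδ1 hA F hF (l e) ν (by rw [hl]; exact hν)
    rw [hl] at h1
    exact h1
  have h3 : ∫⁻ e, M e ∂surf (j + m + 1) = S0 * ∫⁻ g, M (ac g (e0S (j + m))) ∂ha (j + m + 1) :=
    (lint_ac hMm (e0S (j + m))).symm
  have h4 : ∫⁻ g, Psi (j := j) (m := m) F δ p g ∂ha (j + m + 1) ≤ s'⁻¹ * (K * ∫⁻ y, F y ^ p) := by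
    have h5 := lint_Psi (j := j) (m := m) hF hδ (p := p) hK hmax
    rw [← hs'] at h5
    calc ∫⁻ g, Psi (j := j) (m := m) F δ p g ∂ha (j + m + 1)
        = s'⁻¹ * (s' * ∫⁻ g, Psi (j := j) (m := m) F δ p g ∂ha (j + m + 1)) := by
          rw [← mul_assoc, ENNReal.inv_mul_cancel hs0 hst, one_mul]
      _ ≤ _ := by gcongr
  have h6 : ∫⁻ e, M e ∂surf (j + m + 1) ≤ (S0 * s'⁻¹ * B) * (K * ∫⁻ y, F y ^ p) := by
    rw [h3, lintegral_congr hMac]
    calc S0 * ∫⁻ g, B * Gm (j := j) (m := m) F δ p g ∂ha (j + m + 1)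
        = S0 * (B * ∫⁻ g, Psi (j := j) (m := m) F δ p g ∂ha (j + m + 1)) := by
          rw [lintegral_const_mul' _ _ hBt]
          unfold Gm
          rw [lint_mk hF hδ p]
      _ ≤ S0 * (B * (s'⁻¹ * (K * ∫⁻ y, F y ^ p))) := by gcongr
      _ = _ := by ring
  refine h6.trans ?_
  gcongr
  have hti : S0 * s'⁻¹ ≠ ∞ := ENNReal.mul_ne_top hSt (ENNReal.inv_ne_top.2 hs0)
  set t : ℝ := (S0 * s'⁻¹).toReal with ht
  have ht0 : 0 ≤ t := ENNReal.toReal_nonneg
  set L : ℝ := (A + 1) * (1 + Real.log (1 / δ)) with hL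
  have hL1 : 1 ≤ L := one_le_mul_of_one_le_of_one_le (by linarith) (by linarith)
  have hp1 : 0 ≤ p - 1 := by linarith
  rw [← ENNReal.ofReal_toReal hti, ← ht, hBdef, ENNReal.ofReal_rpow_of_nonneg hκ.le (by linarith),
    ENNReal.ofReal_rpow_of_nonneg (by positivity) hp1,
    ← ENNReal.ofReal_mul hlam.le, ← ENNReal.ofReal_mul (by positivity), ← ENNReal.ofReal_mul ht0]
  apply ENNReal.ofReal_le_ofReal
  have e1 : C1 * (A + 1) * (1 + Real.log (1 / δ)) = C1 * L := by rw [hL]; ring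
  have hm1 : 0 ≤ max 1 t := le_trans zero_le_one (le_max_left _ _)
  have hm2 : 0 ≤ max 1 C1 := le_trans zero_le_one (le_max_left _ _)
  have e4 : (C1 * L) ^ (p - 1) = C1 ^ (p - 1) * L ^ (p - 1) := Real.mul_rpow hC1.le (by linarith)
  have e5 : C ^ p = max 1 t ^ p * (κ ^ p * max 1 C1 ^ p) := by
    rw [hC, Real.mul_rpow hm1 (mul_nonneg hκ.le hm2), Real.mul_rpow hκ.le hm2]
  rw [e1, e4, e5]
  have e2 : t ≤ max 1 t ^ p := by
    calc t ≤ max 1 t := le_max_right _ _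
      _ = max 1 t ^ (1 : ℝ) := (Real.rpow_one _).symm
      _ ≤ max 1 t ^ p := Real.rpow_le_rpow_of_exponent_le (le_max_left _ _) (by linarith)
  have e3 : C1 ^ (p - 1) ≤ max 1 C1 ^ p := by
    calc C1 ^ (p - 1) ≤ max 1 C1 ^ (p - 1) := Real.rpow_le_rpow hC1.le (le_max_right _ _) hp1
      _ ≤ max 1 C1 ^ p := Real.rpow_le_rpow_of_exponent_le (le_max_left _ _) (by linarith)
  calc t * (κ ^ p * (δ ^ (-(j - s)) * (C1 ^ (p - 1) * L ^ (p - 1))))
      ≤ max 1 t ^ p * (κ ^ p * (δ ^ (-(j - s)) * (max 1 C1 ^ p * L ^ (p - 1)))) := by gcongr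
    _ = max 1 t ^ p * (κ ^ p * max 1 C1 ^ p) * L ^ (p - 1) * δ ^ (-(j - s)) := by ring

end Pool.Agent.H224.BM
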