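import Pool.Agent.H224.BM.Fix
import Pool.Graph.R_seed8.W767.Sd.Main

/-!
# The maximal estimate in the plane
-/

set_option autoImplicit false

open MeasureTheory Set Metric Filter Topology
open scoped ENNReal NNReal

namespace Pool.Agent.H224.BM

open Pool.Agent.Q93.KF

/-- Jensen's inequality. -/
theorem av_jensen {n : ℕ} {p : ℝ} (hp : 1 ≤ p) {g : E n → ℝ≥0∞} (hg : AEMeasurable g volume) {δ : ℝ}
    (hδ : 0 < δ) (b : E n) {e : E n} (he : ‖e‖ = 1) :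
    av g δ b e ^ p ≤ av (fun y => g y ^ p) δ b e := by
  have hp0 : 0 < p := by linarith
  have hv0 := vol_tube_ne_zero hδ he b
  have hvT := vol_tube_ne_top (δ := δ) he b
  set v := volume (tube δ b (e : E n)) with hv
  have h1 : ∫⁻ y in tube δ b e, g y ≤ (∫⁻ y in tube δ b e, g y ^ p) ^ (1 / p) * v ^ (1 - 1 / p) := by
    rcases eq_or_lt_of_le hp with h | h
    · subst h
      simp
    · have hpq : p.HolderConjugate (p / (p - 1)) := Real.HolderConjugate.conjExponent h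
      have h2 := ENNReal.lintegral_mul_le_Lp_mul_Lq (volume.restrict (tube δ b (e : E n))) hpq
        (f := g) (g := fun _ => 1) hg.restrict aemeasurable_const
      simp only [Pi.mul_apply, mul_one, ENNReal.one_rpow, lintegral_const,
        Measure.restrict_apply_univ, one_mul] at h2
      refine h2.trans (le_of_eq ?_)
      congr 2
      field_simp
  have h3 : av g δ b e ≤ (v⁻¹ * ∫⁻ y in tube δ b e, g y ^ p) ^ (1 / p) := by
    unfold av
    rw [← hv]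
    calc v⁻¹ * ∫⁻ y in tube δ b e, g y
        ≤ v⁻¹ * ((∫⁻ y in tube δ b e, g y ^ p) ^ (1 / p) * v ^ (1 - 1 / p)) := by gcongr
      _ = (v⁻¹ * ∫⁻ y in tube δ b e, g y ^ p) ^ (1 / p) := by
        rw [ENNReal.mul_rpow_of_nonneg _ _ (by positivity), ENNReal.inv_rpow, ← ENNReal.rpow_neg]
        have h4 : v⁻¹ * v ^ (1 - 1 / p) = v ^ (-(1 / p)) := by
          rw [← ENNReal.rpow_neg_one, ← ENNReal.rpow_add _ _ hv0 hvT]
          congr 1; ring
        rw [← h4]; ring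
  calc av g δ b e ^ p ≤ ((v⁻¹ * ∫⁻ y in tube δ b e, g y ^ p) ^ (1 / p)) ^ p := by gcongr
    _ = v⁻¹ * ∫⁻ y in tube δ b e, g y ^ p := by
      rw [← ENNReal.rpow_mul, one_div_mul_cancel hp0.ne', ENNReal.rpow_one]

theorem mx_jensen {n : ℕ} {r : ℝ} (hr : 1 ≤ r) {g : E n → ℝ≥0∞} (hg : AEMeasurable g volume) {δ : ℝ}
    (hδ : 0 < δ) {e : E n} (he : ‖e‖ = 1) : mx g δ e ^ r ≤ mx (fun y => g y ^ r) δ e := by
  have hr0 : 0 < r := by linarith
  unfold mx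
  rw [← ENNReal.le_rpow_inv_iff hr0]
  refine iSup_le fun b => ?_
  rw [ENNReal.le_rpow_inv_iff hr0]
  exact (av_jensen hr hg hδ b he).trans (le_iSup (fun b => av (fun y => g y ^ r) δ b e) b)

/-- The estimate at a larger exponent. -/
theorem est_up {n : ℕ} {p q : ℝ} (hp : 0 < p) (hpq : p ≤ q) {δ : ℝ} (hδ : 0 < δ) {K : ℝ≥0∞}
    (h : ∀ G : E n → ℝ≥0∞, Measurable G → ∫⁻ e, mx G δ e ^ p ∂surf n ≤ K * ∫⁻ x, G x ^ p)
    (G : E n → ℝ≥0∞) (hG : Measurable G) :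
    ∫⁻ e, mx G δ e ^ q ∂surf n ≤ K * ∫⁻ x, G x ^ q := by
  set r : ℝ := q / p with hr
  have hr1 : 1 ≤ r := by rw [hr, le_div_iff₀ hp]; linarith
  have hrp : r * p = q := by rw [hr]; field_simp
  calc ∫⁻ e, mx G δ e ^ q ∂surf n ≤ ∫⁻ e, mx (fun y => G y ^ r) δ e ^ p ∂surf n := by
        refine lintegral_mono fun e => ?_
        calc mx G δ e ^ q = (mx G δ e ^ r) ^ p := by rw [← ENNReal.rpow_mul, hrp]
          _ ≤ mx (fun y => G y ^ r) δ e ^ p := by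
              gcongr
              exact mx_jensen hr1 hG.aemeasurable hδ (by simp)
    _ ≤ K * ∫⁻ x, (G x ^ r) ^ p := h _ (hG.pow_const r)
    _ = K * ∫⁻ x, G x ^ q := by
        congr 1
        refine lintegral_congr fun x => ?_
        rw [← ENNReal.rpow_mul, hrp]

/-- **The plane.** -/
theorem planar2 : ∃ C : ℝ, 0 < C ∧ ∀ δ : ℝ, 0 < δ → δ < 1 → ∀ G : E 2 → ℝ≥0∞, Measurable G →
    ∫⁻ e, mx G δ e ^ (2 : ℝ) ∂surf 2 ≤
      ENNReal.ofReal (C * (1 + Real.log (1 / δ))) * ∫⁻ x, G x ^ (2 : ℝ) := by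
  obtain ⟨C, hC, hmain⟩ := Pool.Agent.W767.Sd.base
  obtain ⟨c, hc, hvol⟩ := Pool.Agent.H742R2.Kk.volume_tube 1
  refine ⟨(c⁻¹) ^ 2 * 2 * C, by positivity, fun δ hδ hδ1 G hG => ?_⟩
  have hlog : 0 ≤ Real.log (1 / δ) := Real.log_nonneg (by rw [le_div_iff₀ hδ]; linarith)
  obtain ⟨M, hMm, hMle, hMint⟩ := hmain δ hδ hδ1.le G hG
  have hpt : ∀ e : S 2, mx G δ e ^ (2 : ℝ) ≤ ENNReal.ofReal ((c⁻¹) ^ 2) * M e := by
    intro e
    have he : ‖(e : E 2)‖ = 1 := by simp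
    have e2 : ∀ x : ℝ≥0∞, x ^ (2 : ℝ) = x ^ 2 := fun x => by
      rw [← ENNReal.rpow_natCast]; norm_num
    rw [e2]
    unfold mx
    rw [ENNReal.iSup_pow]
    apply iSup_le
    intro a
    have h1 : (volume (tube δ a (e : E 2)))⁻¹ ≤
        ENNReal.ofReal c⁻¹ * (ENNReal.ofReal δ ^ 1)⁻¹ := by
      have h2 := hvol δ e a hδ he
      calc (volume (tube δ a (e : E 2)))⁻¹
          ≤ (ENNReal.ofReal (c * δ ^ 1))⁻¹ := ENNReal.inv_le_inv.2 h2
        _ = ENNReal.ofReal c⁻¹ * (ENNReal.ofReal δ ^ 1)⁻¹ := by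
            rw [ENNReal.ofReal_mul hc.le, ENNReal.mul_inv (Or.inr ENNReal.ofReal_ne_top)
              (Or.inl ENNReal.ofReal_ne_top), ENNReal.ofReal_inv_of_pos hc,
              ENNReal.ofReal_pow hδ.le]
    have h3 : ∫⁻ y in tube δ a (e : E 2), G y ≤
        ∫⁻ y in Pool.Agent.W767.Sd.cyl δ 1 (e : E 2) a, G y := by
      apply lintegral_mono_set
      rintro y ⟨hy1, hy2⟩
      exact ⟨by linarith, hy2⟩
    calc (av G δ a e) ^ 2
        ≤ (ENNReal.ofReal c⁻¹ * ((ENNReal.ofReal δ ^ 1)⁻¹ *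
          ∫⁻ y in Pool.Agent.W767.Sd.cyl δ 1 (e : E 2) a, G y)) ^ 2 := by
          unfold av
          rw [← mul_assoc]
          gcongr
      _ = ENNReal.ofReal c⁻¹ ^ 2 * ((ENNReal.ofReal δ ^ 1)⁻¹ *
          ∫⁻ y in Pool.Agent.W767.Sd.cyl δ 1 (e : E 2) a, G y) ^ 2 := mul_pow _ _ _
      _ ≤ _ := by
          rw [ENNReal.ofReal_pow (by positivity)]
          gcongr
          exact hMle e a he
  have e3 : ∫⁻ y, G y ^ (2 : ℝ) = ∫⁻ y, G y ^ (1 + 1) := by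
    refine lintegral_congr fun y => ?_
    rw [← ENNReal.rpow_natCast]; norm_num
  rw [e3]
  calc ∫⁻ e, mx G δ e ^ (2 : ℝ) ∂surf 2
      ≤ ∫⁻ e : S 2, ENNReal.ofReal ((c⁻¹) ^ 2) * M e ∂surf 2 := lintegral_mono hpt
    _ = ENNReal.ofReal ((c⁻¹) ^ 2) * ∫⁻ e : S 2, M e ∂surf 2 :=
        lintegral_const_mul' _ _ ENNReal.ofReal_ne_top
    _ ≤ ENNReal.ofReal ((c⁻¹) ^ 2) * ((((1 : ℕ) : ℝ≥0∞) + 1) *
          ∫⁻ x in closedBall (0 : E 2) 1, M (‖x‖⁻¹ • x)) := by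
        gcongr
        exact Pool.Agent.H742R2.Kk.sphere_le_ball 1 hMm
    _ ≤ ENNReal.ofReal ((c⁻¹) ^ 2) * (ENNReal.ofReal 2 *
          (ENNReal.ofReal (C * (1 + Real.log (1 / δ))) * ∫⁻ y, G y ^ (1 + 1))) := by
        have e5 : (((1 : ℕ) : ℝ≥0∞) + 1) = ENNReal.ofReal 2 := by norm_num
        rw [e5]
        gcongr
    _ = _ := by
        rw [← mul_assoc, ← mul_assoc, ← ENNReal.ofReal_mul (by positivity),
          ← ENNReal.ofReal_mul (by positivity)]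
        congr 2
        ring

end Pool.Agent.H224.BM
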