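import Pool.Agent.H224.BM.Bundle

/-!
# The maximal estimate for bundles
-/

set_option autoImplicit false

open MeasureTheory Set Metric Filter Topology
open scoped ENNReal NNReal

namespace Pool.Agent.H224.BM

open Pool.Agent.Q93.KF

variable {j m : ℕ}

theorem meas_ball_int {N : ℕ} {T : E N → E j} (hT : Measurable T) {G : E j → ℝ≥0∞}
    (hG : Measurable G) (δ : ℝ) :
    Measurable fun q : E N => ∫⁻ σ in closedBall (T q) δ, G σ := by
  have hDm : MeasurableSet {z : E N × E j | ‖z.2 - T z.1‖ ≤ δ} :=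
    measurableSet_le (measurable_snd.sub (hT.comp measurable_fst)).norm measurable_const
  have g0 : Measurable ({z : E N × E j | ‖z.2 - T z.1‖ ≤ δ}.indicator (fun z => G z.2)) :=
    (hG.comp measurable_snd).indicator hDm
  have h1 : (fun q : E N => ∫⁻ σ in closedBall (T q) δ, G σ) = fun q : E N =>
      ∫⁻ σ, ({z : E N × E j | ‖z.2 - T z.1‖ ≤ δ}.indicator (fun z => G z.2)) (q, σ) := by
    ext q
    rw [← lintegral_indicator isClosed_closedBall.measurableSet]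
    refine lintegral_congr fun σ => ?_
    by_cases hσ : σ ∈ closedBall (T q) δ
    · have h2 : (q, σ) ∈ {z : E N × E j | ‖z.2 - T z.1‖ ≤ δ} := by
        rw [mem_closedBall, dist_eq_norm] at hσ
        exact hσ
      rw [indicator_of_mem hσ, indicator_of_mem h2]
    · have h2 : (q, σ) ∉ {z : E N × E j | ‖z.2 - T z.1‖ ≤ δ} := by
        intro h
        apply hσ
        rw [mem_closedBall, dist_eq_norm]
        exact h
      rw [indicator_of_notMem hσ, indicator_of_notMem h2]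
  rw [h1]
  exact g0.lintegral_prod_right'

theorem bundle_av {κ δ : ℝ} (hκ : 0 < κ) (hδ : 0 < δ)
    (hV : ∀ (b : E (m + 1)) (a e : E (j + m + 1)), ‖e‖ = 1 →
      (volume (tube δ a e))⁻¹ * volume (tube δ b (e0 m)) ≤ ENNReal.ofReal (κ / δ ^ j))
    {F : E (j + m + 1) → ℝ≥0∞} (hF : Measurable F) (g : On (j + m + 1))
    (ν : Measure (E (j + m + 1))) (k : On (j + m)) :
    ∫⁻ a, av F δ a (act (j + m + 1) g⁻¹ (e0 (j + m))) ∂ν ≤
      ENNReal.ofReal κ * ∫⁻ q, (ENNReal.ofReal (δ ^ j))⁻¹ *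
        ∫⁻ σ in closedBall (Tk j m k q) δ, mk F δ g k σ ∂volume ∂(ν.map (pg g)) := by
  have hD0 : ENNReal.ofReal (δ ^ j) ≠ 0 := (ENNReal.ofReal_pos.2 (by positivity)).ne'
  have hDi : (ENNReal.ofReal (δ ^ j))⁻¹ ≠ ∞ := ENNReal.inv_ne_top.2 hD0
  have hm1 : Measurable fun σ : E j => mk F δ g k σ := by
    have h1 : Measurable fun σ : E j => ((g, (k, σ)) : On (j + m + 1) × (On (j + m) × E j)) :=
      measurable_const.prodMk (measurable_const.prodMk measurable_id)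
    have h2 := (meas_mk (j := j) (m := m) hF hδ).comp h1
    exact h2
  have hm2 : Measurable (Tk j m k) := (cont_P1 j m).measurable.comp
    (act (j + m) k⁻¹).continuous.measurable
  have hm3 : Measurable fun q : E (j + m) => (ENNReal.ofReal (δ ^ j))⁻¹ *
      ∫⁻ σ in closedBall (Tk j m k q) δ, mk F δ g k σ := (meas_ball_int hm2 hm1 δ).const_mul _
  rw [lintegral_map hm3 (meas_pg g), ← lintegral_const_mul' _ _ ENNReal.ofReal_ne_top]
  refine lintegral_mono fun a => ?_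
  set R : E (j + m + 1) ≃ₗᵢ[ℝ] E (j + m + 1) :=
    (hat (act (j + m) k)).trans (act (j + m + 1) g⁻¹) with hR
  have h1 := av_slices hδ hV F hF R a
  have h2 : R (e0 (j + m)) = act (j + m + 1) g⁻¹ (e0 (j + m)) := by
    show act (j + m + 1) g⁻¹ (hat (act (j + m) k) (e0 (j + m))) = _
    rw [hat_e0]
  have h3 : pb j m (R.symm a) = Tk j m k (pg g a) := by
    show P1 j m (tl (j + m) ((hat (act (j + m) k)).symm ((act (j + m + 1) g⁻¹).symm a))) =
      P1 j m (act (j + m) k⁻¹ (tl (j + m) (act (j + m + 1) g a)))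
    rw [hat_symm, hat_apply, tl_hatl, symm_inv]
    have h4 : (act (j + m) k).symm = act (j + m) k⁻¹ := by
      have := symm_inv k⁻¹
      rw [inv_inv] at this
      exact this
    rw [h4]
  rw [h2, h3] at h1
  refine h1.trans (le_of_eq ?_)
  rw [← mul_assoc]
  have h5 : ENNReal.ofReal (κ / δ ^ j) = ENNReal.ofReal κ * (ENNReal.ofReal (δ ^ j))⁻¹ := by
    rw [div_eq_mul_inv, ENNReal.ofReal_mul hκ.le, ENNReal.ofReal_inv_of_pos (by positivity)]
  rw [h5]
  rfl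

/-- **The average over a bundle and the maximal functions of the slices.** -/
theorem bundle_le (j m : ℕ) (hN : 1 ≤ j + m) : ∃ κ C1 : ℝ, 0 < κ ∧ 0 < C1 ∧
    ∀ p : ℝ, 2 ≤ p → ∀ s δ A : ℝ, s ≤ j → 0 < δ → δ < 1 → 0 ≤ A →
    ∀ F : E (j + m + 1) → ℝ≥0∞, Measurable F →
    ∀ (g : On (j + m + 1)) (ν : Measure (E (j + m + 1))),
      IsBundle s A δ (act (j + m + 1) g⁻¹ (e0 (j + m))) ν →
      (∫⁻ a, av F δ a (act (j + m + 1) g⁻¹ (e0 (j + m))) ∂ν) ^ p ≤
        ENNReal.ofReal κ ^ p * ((ENNReal.ofReal (δ ^ (-(j - s))) *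
          ENNReal.ofReal (C1 * (A + 1) * (1 + Real.log (1 / δ))) ^ (p - 1)) *
          ∫⁻ k, ∫⁻ σ, mk F δ g k σ ^ p ∂volume ∂ha (j + m)) := by
  obtain ⟨κ, hκ, hV⟩ := vol_ratio j m
  obtain ⟨C, hT⟩ := rp_Tk j m hN
  obtain ⟨C1, hC1, hP⟩ := pair_le hT
  refine ⟨κ, C1, hκ, hC1, fun p hp s δ A hs hδ hδ1 hA F hF g ν hν => ?_⟩
  have h1 := bundle_av hκ hδ (hV δ hδ hδ1.le) hF g ν
  have hm : Measurable (Function.uncurry (mk (j := j) (m := m) F δ g)) := by
    have h2 : Measurable fun q : On (j + m) × E j =>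
        ((g, q) : On (j + m + 1) × (On (j + m) × E j)) := measurable_prodMk_left
    have h3 := (meas_mk (j := j) (m := m) hF hδ).comp h2
    exact h3
  have h4 := hP p hp s δ A hs hδ hδ1 hA (ν.map (pg g)) (push_mass g hν)
    (fun y r hr => push_ball g hν y r hr) (mk F δ g) hm
  have h5 : ∫⁻ a, av F δ a (act (j + m + 1) g⁻¹ (e0 (j + m))) ∂ν ≤
      ENNReal.ofReal κ * ∫⁻ k, ∫⁻ q, (ENNReal.ofReal (δ ^ j))⁻¹ *
        ∫⁻ σ in closedBall (Tk j m k q) δ, mk F δ g k σ ∂volume ∂(ν.map (pg g)) ∂ha (j + m) := by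
    have h6 : ∫⁻ a, av F δ a (act (j + m + 1) g⁻¹ (e0 (j + m))) ∂ν =
        ∫⁻ _k : On (j + m), (∫⁻ a, av F δ a (act (j + m + 1) g⁻¹ (e0 (j + m))) ∂ν) ∂ha (j + m) := by
      rw [lintegral_const, measure_univ, mul_one]
    rw [h6, ← lintegral_const_mul' _ _ ENNReal.ofReal_ne_top]
    exact lintegral_mono h1
  calc _ ≤ (ENNReal.ofReal κ * ∫⁻ k, ∫⁻ q, (ENNReal.ofReal (δ ^ j))⁻¹ *
        ∫⁻ σ in closedBall (Tk j m k q) δ, mk F δ g k σ ∂volume ∂(ν.map (pg g)) ∂ha (j + m)) ^ p :=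
        ENNReal.rpow_le_rpow h5 (by linarith)
    _ = ENNReal.ofReal κ ^ p * (∫⁻ k, ∫⁻ q, (ENNReal.ofReal (δ ^ j))⁻¹ *
        ∫⁻ σ in closedBall (Tk j m k q) δ, mk F δ g k σ ∂volume ∂(ν.map (pg g)) ∂ha (j + m)) ^ p :=
        ENNReal.mul_rpow_of_nonneg _ _ (by linarith)
    _ ≤ _ := by gcongr

theorem meas_mk_int {F : E (j + m + 1) → ℝ≥0∞} (hF : Measurable F) {δ : ℝ} (hδ : 0 < δ) (p : ℝ) :
    Measurable fun q : On (j + m + 1) × On (j + m) => ∫⁻ σ, mk F δ q.1 q.2 σ ^ p := by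
  have h1 : Measurable fun q : (On (j + m + 1) × On (j + m)) × E j =>
      ((q.1.1, (q.1.2, q.2)) : On (j + m + 1) × (On (j + m) × E j)) :=
    (measurable_fst.comp measurable_fst).prodMk
      ((measurable_snd.comp measurable_fst).prodMk measurable_snd)
  have h2 := ((meas_mk (j := j) (m := m) hF hδ).comp h1).pow_const p
  exact h2.lintegral_prod_right' (ν := (volume : Measure (E j)))

theorem lint_mk {F : E (j + m + 1) → ℝ≥0∞} (hF : Measurable F) {δ : ℝ} (hδ : 0 < δ) (p : ℝ) :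
    ∫⁻ g, ∫⁻ k, ∫⁻ σ, mk F δ g k σ ^ p ∂volume ∂ha (j + m) ∂ha (j + m + 1) =
      ∫⁻ g, Psi (j := j) (m := m) F δ p g ∂ha (j + m + 1) := by
  have h1 : ∫⁻ g, ∫⁻ k, ∫⁻ σ, mk F δ g k σ ^ p ∂volume ∂ha (j + m) ∂ha (j + m + 1) =
      ∫⁻ k, ∫⁻ g, ∫⁻ σ, mk F δ g k σ ^ p ∂volume ∂ha (j + m + 1) ∂ha (j + m) :=
    lintegral_lintegral_swap (meas_mk_int hF hδ p).aemeasurable
  rw [h1]
  have h2 : ∀ k : On (j + m), ∫⁻ g, ∫⁻ σ, mk F δ g k σ ^ p ∂volume ∂ha (j + m + 1) =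
      ∫⁻ g, Psi (j := j) (m := m) F δ p g ∂ha (j + m + 1) := by
    intro k
    obtain ⟨l, hl⟩ := mk_eq (j := j) (m := m) F δ k
    have h3 := lintegral_mul_left_eq_self (μ := ha (j + m + 1))
      (fun g => Psi (j := j) (m := m) F δ p g) l
    rw [← h3]
    refine lintegral_congr fun g => ?_
    unfold Psi
    refine lintegral_congr fun σ => ?_
    rw [hl]
  rw [lintegral_congr h2, lintegral_const, measure_univ, mul_one]

/-- The maximal function over the bundles. -/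
noncomputable def bmax {n : ℕ} (s A : ℝ) (F : E n → ℝ≥0∞) (δ : ℝ) (e : E n) : ℝ≥0∞ :=
  ⨆ (ν : Measure (E n)) (_ : IsBundle s A δ e ν), ∫⁻ a, av F δ a e ∂ν

end Pool.Agent.H224.BM
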