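import Pool.Agent.H224.BM.Slices

/-!
# Measurability in a parameter
-/

set_option autoImplicit false

open MeasureTheory Set Metric Filter Topology
open scoped ENNReal NNReal

namespace Pool.Agent.H224.BM

open Pool.Agent.Q93.KF

theorem mx_eq_dense {n : ℕ} {F : E n → ℝ≥0∞} (hF : Measurable F) {δ : ℝ} (hδ : 0 < δ) (e : E n) :
    mx F δ e = ⨆ m, av F δ (TopologicalSpace.denseSeq (E n) m) e := by
  refine le_antisymm ?_ ?_
  · refine iSup_le fun b => ?_
    obtain ⟨x, hx, hlim⟩ := mem_closure_iff_seq_limit.1
      (TopologicalSpace.denseRange_denseSeq (E n) b)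
    choose φ hφ using hx
    have h2 := fatou (g := F) (gs := fun _ => F)
      (fun _ => hF.aemeasurable) (Eventually.of_forall fun y => by simp) hδ hlim e
    refine h2.trans ?_
    refine liminf_le_of_le (by isBoundedDefault) fun c hc => ?_
    obtain ⟨i, hi⟩ := hc.exists
    refine hi.trans ?_
    rw [← hφ i]
    exact le_iSup (fun m => av F δ (TopologicalSpace.denseSeq (E n) m) e) (φ i)
  · exact iSup_le fun m => le_iSup (fun b => av F δ b e) _

theorem meas_mx_param {Θ : Type} [MeasurableSpace Θ] {n : ℕ} {G : Θ × E n → ℝ≥0∞}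
    (hG : Measurable G) {δ : ℝ} (hδ : 0 < δ) (e : E n) :
    Measurable fun θ : Θ => mx (fun x => G (θ, x)) δ e := by
  have h1 : ∀ θ : Θ, mx (fun x => G (θ, x)) δ e =
      ⨆ m, av (fun x => G (θ, x)) δ (TopologicalSpace.denseSeq (E n) m) e := by
    intro θ
    have h2 : Measurable fun x => G (θ, x) := hG.comp measurable_prodMk_left
    exact mx_eq_dense h2 hδ e
  have h3 : (fun θ : Θ => mx (fun x => G (θ, x)) δ e) = fun θ : Θ =>
      ⨆ m, av (fun x => G (θ, x)) δ (TopologicalSpace.denseSeq (E n) m) e := funext h1
  rw [h3]
  refine Measurable.iSup fun m => ?_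
  unfold av
  refine Measurable.const_mul ?_ _
  exact hG.lintegral_prod_right'
    (ν := volume.restrict (tube δ (TopologicalSpace.denseSeq (E n) m) e))

theorem meas_act1 (n : ℕ) (x : E n) : Measurable fun g : On n => act n g⁻¹ x := by
  have h1 : Continuous fun g : On n => act n g⁻¹ x := (act_cont x).comp continuous_inv
  exact h1.measurable

theorem meas_act0 (n : ℕ) (x : E n) : Measurable fun g : On n => act n g x := (act_cont x).measurable

/-- `(x, g) ↦ g⁻¹ x` is measurable -/
theorem meas_actv (n : ℕ) : Measurable (fun q : E n × On n => act n q.2⁻¹ q.1) := by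
  have h : Measurable (Function.uncurry fun (x : E n) (g : On n) => (act n g⁻¹ x : E n)) := by
    refine measurable_uncurry_of_continuous_of_measurable (fun g => (act n g⁻¹).continuous)
      fun x => meas_act1 n x
  exact h

theorem meas_act2 (n : ℕ) : Measurable (fun q : E n × On n => act n q.2 q.1) := by
  have h : Measurable (Function.uncurry fun (x : E n) (g : On n) => (act n g x : E n)) := by
    refine measurable_uncurry_of_continuous_of_measurable (fun g => (act n g).continuous)
      fun x => meas_act0 n x
  exact h

theorem cont_tl (k : ℕ) : Continuous (tl k) := LinearMap.continuous_of_finiteDimensional _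

theorem meas_hat (N : ℕ) : Measurable (fun q : E (N + 1) × On N => hat (act N q.2) q.1) := by
  have h0 : Measurable fun q : E (N + 1) × On N => act N q.2 (tl N q.1) := by
    have h1 : Measurable fun q : E (N + 1) × On N => (tl N q.1, q.2) :=
      ((cont_tl N).measurable.comp measurable_fst).prodMk measurable_snd
    exact (meas_act2 N).comp h1
  have h2 : Measurable fun q : E (N + 1) × On N =>
      (Fin.cons (q.1 0) (fun i => act N q.2 (tl N q.1) i) : Fin (N + 1) → ℝ) := by
    rw [measurable_pi_iff]
    intro i
    refine Fin.cases ?_ (fun i => ?_) i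
    · have h3 : Measurable fun x : E (N + 1) => x 0 := by fun_prop
      exact h3.comp measurable_fst
    · have h3 : Measurable fun x : E N => x i := by fun_prop
      exact h3.comp h0
  exact (WithLp.measurable_toLp 2 (Fin (N + 1) → ℝ)).comp h2

theorem meas_J (j m : ℕ) : Measurable (fun p : E (m + 1) × E j => J p.1 p.2) := (mp_J j m).measurable

end Pool.Agent.H224.BM
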