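import Pool.Agent.H224.BM.Rot

/-!
# Projections of random rotations of a vector
-/

set_option autoImplicit false

open MeasureTheory Set Metric Filter Topology
open scoped ENNReal NNReal Pointwise

namespace Pool.Agent.H224.BM

open Pool.Agent.Q93.KF

variable {j m : ℕ}

/-- the first `j` coordinates -/
noncomputable def P1 (j m : ℕ) : E (j + m) →ₗ[ℝ] E j where
  toFun x := WithLp.toLp 2 fun i => x (Fin.castAdd m i)
  map_add' x y := by ext i; simp
  map_smul' r x := by ext i; simp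

theorem P1_apply (x : E (j + m)) (i : Fin j) : P1 j m x i = x (Fin.castAdd m i) := rfl

theorem abs_le_norm {k : ℕ} (x : E k) (i : Fin k) : |x i| ≤ ‖x‖ := by
  have := PiLp.norm_apply_le (p := 2) x i
  simpa using this

theorem vol_box {k : ℕ} (c : Fin k → ℝ) (b : Fin k → ℝ) :
    volume {x : E k | ∀ i, |x i - b i| ≤ c i} = ∏ i, ENNReal.ofReal (2 * c i) := by
  have h1 : {x : E k | ∀ i, |x i - b i| ≤ c i} =
      (WithLp.ofLp : E k → (Fin k → ℝ)) ⁻¹' (Set.pi univ fun i => Icc (b i - c i) (b i + c i)) := by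
    ext x
    simp only [mem_ofPred_eq, mem_preimage, Set.mem_pi, mem_univ, true_implies, mem_Icc]
    refine forall_congr' fun i => ?_
    rw [abs_le]
    constructor
    · rintro ⟨h1, h2⟩
      exact ⟨by linarith, by linarith⟩
    · rintro ⟨h1, h2⟩
      exact ⟨by linarith, by linarith⟩
  rw [h1, (PiLp.volume_preserving_ofLp (Fin k)).measure_preimage
    (MeasurableSet.univ_pi fun i => measurableSet_Icc).nullMeasurableSet, volume_pi_pi]
  refine Finset.prod_congr rfl fun i _ => ?_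
  rw [Real.volume_Icc]
  congr 1
  ring

/-- the cap of the vectors with a small projection -/
theorem surf_small (hN : 1 ≤ j + m) (ρ : ℝ) (hρ : 0 ≤ ρ) :
    surf (j + m) {e | ‖P1 j m e‖ ≤ ρ} ≤ ENNReal.ofReal (((j + m : ℕ) : ℝ) * 2 ^ (j + m) * ρ ^ j) := by
  have hm : MeasurableSet {e : S (j + m) | ‖P1 j m e‖ ≤ ρ} := by
    have hc : Continuous fun e : S (j + m) => ‖P1 j m (e : E (j + m))‖ :=
      (LinearMap.continuous_of_finiteDimensional (P1 j m)).norm.comp continuous_subtype_val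
    exact measurableSet_le hc.measurable measurable_const
  rw [Measure.toSphere_apply' _ hm]
  set c : Fin (j + m) → ℝ := Fin.append (fun _ : Fin j => ρ) (fun _ : Fin m => 1) with hc
  have hsub : Ioo (0 : ℝ) 1 • ((fun e : S (j + m) => (e : E (j + m))) ''
      {e : S (j + m) | ‖P1 j m e‖ ≤ ρ}) ⊆ {x : E (j + m) | ∀ i, |x i - (0 : Fin (j + m) → ℝ) i| ≤ c i} := by
    rintro _ ⟨t, ⟨ht0, ht1⟩, _, ⟨e, he, rfl⟩, rfl⟩ i
    have he1 : ‖(e : E (j + m))‖ = 1 := by simp
    simp only [Pi.zero_apply, sub_zero, PiLp.smul_apply, smul_eq_mul, abs_mul, abs_of_pos ht0]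
    refine Fin.addCases (fun i => ?_) (fun i => ?_) i
    · rw [hc, Fin.append_left]
      have h1 : |P1 j m (e : E (j + m)) i| ≤ ρ := (abs_le_norm _ i).trans he
      rw [P1_apply] at h1
      calc t * |(e : E (j + m)) (Fin.castAdd m i)| ≤ 1 * ρ := by gcongr
        _ = ρ := one_mul _
    · rw [hc, Fin.append_right]
      have h1 : |(e : E (j + m)) (Fin.natAdd j i)| ≤ 1 := by
        rw [← he1]; exact abs_le_norm _ _
      calc t * |(e : E (j + m)) (Fin.natAdd j i)| ≤ 1 * 1 := by gcongr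
        _ = 1 := one_mul _
  have h2 : volume {x : E (j + m) | ∀ i, |x i - (0 : Fin (j + m) → ℝ) i| ≤ c i} =
      ENNReal.ofReal (2 ^ (j + m) * ρ ^ j) := by
    rw [vol_box, Fin.prod_univ_add]
    simp only [hc, Fin.append_left, Fin.append_right, Finset.prod_const, Finset.card_univ,
      Fintype.card_fin]
    rw [← ENNReal.ofReal_pow (by positivity), ← ENNReal.ofReal_pow (by positivity),
      ← ENNReal.ofReal_mul (by positivity)]
    congr 1
    rw [mul_pow, pow_add]
    ring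
  rw [finrank_euclideanSpace, Fintype.card_fin]
  refine (mul_le_mul_right (measure_mono hsub) _).trans ?_
  rw [h2, ← ENNReal.ofReal_natCast, ← ENNReal.ofReal_mul (by positivity)]
  apply le_of_eq
  congr 1
  ring

/-- **Random projections** -/
theorem proj_ha (j m : ℕ) (hN : 1 ≤ j + m) : ∃ C : ℝ, 0 < C ∧ ∀ (q : E (j + m)) (r : ℝ), q ≠ 0 →
    0 ≤ r → ha (j + m) {k | ‖P1 j m (act (j + m) k⁻¹ q)‖ ≤ r} ≤
      ENNReal.ofReal (C * (r / ‖q‖) ^ j) := by
  set σ := surf (j + m) univ with hσ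
  have h0 : σ ≠ 0 := surf_univ_ne_zero hN
  have ht : σ ≠ ∞ := surf_univ_ne_top _
  refine ⟨(σ.toReal)⁻¹ * (((j + m : ℕ) : ℝ) * 2 ^ (j + m)), ?_, ?_⟩
  · have h1 : 0 < σ.toReal := ENNReal.toReal_pos h0 ht
    have h2 : (0 : ℝ) < ((j + m : ℕ) : ℝ) := by exact_mod_cast hN
    positivity
  intro q r hq hr
  have hq0 : 0 < ‖q‖ := norm_pos_iff.2 hq
  set u : S (j + m) := ⟨‖q‖⁻¹ • q, by
    rw [mem_sphere_zero_iff_norm, norm_smul, norm_inv, norm_norm, inv_mul_cancel₀ hq0.ne']⟩ with hu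
  set ρ := r / ‖q‖ with hρ
  have hρ0 : 0 ≤ ρ := by positivity
  set A : Set (S (j + m)) := {e | ‖P1 j m e‖ ≤ ρ} with hA
  have hm : MeasurableSet A := by
    have hc : Continuous fun e : S (j + m) => ‖P1 j m (e : E (j + m))‖ :=
      (LinearMap.continuous_of_finiteDimensional (P1 j m)).norm.comp continuous_subtype_val
    exact measurableSet_le hc.measurable measurable_const
  have hset : {k | ‖P1 j m (act (j + m) k⁻¹ q)‖ ≤ r} = {k | ac k u ∈ A} := by
    ext k
    simp only [mem_ofPred_eq, hA]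
    have h1 : ((ac k u : S (j + m)) : E (j + m)) = ‖q‖⁻¹ • act (j + m) k⁻¹ q := by
      show act (j + m) k⁻¹ (‖q‖⁻¹ • q) = _
      rw [map_smul]
    rw [h1, map_smul, norm_smul, norm_inv, norm_norm, hρ, ← div_eq_inv_mul,
      div_le_div_iff_of_pos_right hq0]
  have h1 := lint_ac (n := j + m) (Φ := A.indicator 1) (measurable_one.indicator hm) u
  rw [lintegral_indicator_one hm] at h1
  have h2 : ∫⁻ g, A.indicator (1 : S (j + m) → ℝ≥0∞) (ac g u) ∂ha (j + m) =
      ha (j + m) {k | ac k u ∈ A} := by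
    have hmk : MeasurableSet {k : On (j + m) | ac k u ∈ A} :=
      (measurable_ac.comp (measurable_const.prodMk measurable_id)) hm
    rw [← lintegral_indicator_one hmk]
    rfl
  rw [h2, ← hσ] at h1
  rw [hset]
  have h3 : ha (j + m) {k | ac k u ∈ A} = σ⁻¹ * surf (j + m) A := by
    rw [← h1, ← mul_assoc, ENNReal.inv_mul_cancel h0 ht, one_mul]
  rw [h3]
  refine (mul_le_mul_right (surf_small hN ρ hρ0) _).trans ?_
  have h4 : σ⁻¹ = ENNReal.ofReal (σ.toReal)⁻¹ := by
    rw [ENNReal.ofReal_inv_of_pos (ENNReal.toReal_pos h0 ht), ENNReal.ofReal_toReal ht]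
  rw [h4, ← ENNReal.ofReal_mul (by positivity)]
  apply le_of_eq
  congr 1
  ring

end Pool.Agent.H224.BM
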