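import Pool.Graph.R_pool_sql_team_seeded_3997aac3.Q93.KF7

/-!
# Haar measure on the orthogonal group and the surface measure
-/

set_option autoImplicit false

open MeasureTheory Set Metric Filter Topology
open scoped ENNReal NNReal

namespace Pool.Agent.H224.BM

open Pool.Agent.Q93.KF

variable {n : ℕ}

noncomputable instance msOn (n : ℕ) : MeasurableSpace (On n) := borel _

instance bsOn (n : ℕ) : BorelSpace (On n) := ⟨rfl⟩

/-- The invariant probability measure on the orthogonal group -/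
noncomputable def ha (n : ℕ) : Measure (On n) :=
  Measure.haarMeasure (⊤ : TopologicalSpace.PositiveCompacts (On n))

instance prob_ha (n : ℕ) : IsProbabilityMeasure (ha n) :=
  ⟨Measure.haarMeasure_self (K₀ := (⊤ : TopologicalSpace.PositiveCompacts (On n)))⟩

instance inv_ha (n : ℕ) : (ha n).IsMulLeftInvariant := by
  unfold ha
  infer_instance

theorem mp_rot (k : E n ≃ₗᵢ[ℝ] E n) : MeasurePreserving (rot k) (surf n) (surf n) := by
  refine ⟨(continuous_rot k).measurable, ?_⟩
  ext A hA
  rw [Measure.map_apply (continuous_rot k).measurable hA, surf_rot k hA]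

/-- the action on the sphere -/
noncomputable def ac (g : On n) (e : S n) : S n := rot (act n g⁻¹) e

theorem ac_mul (g h : On n) (e : S n) : ac (g * h) e = ac h (ac g e) := by
  apply Subtype.ext
  show act n (g * h)⁻¹ e = act n h⁻¹ (act n g⁻¹ e)
  rw [mul_inv_rev, (act n).map_mul]
  rfl

theorem measurable_ac : Measurable (fun q : S n × On n => ac q.2 q.1) := by
  have h : Measurable (Function.uncurry fun (e : S n) (g : On n) => ac g e) := by
    refine measurable_uncurry_of_continuous_of_measurable (fun g => continuous_rot _) fun e => ?_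
    refine Continuous.measurable ?_
    exact ((act_cont (e : E n)).comp continuous_inv).subtype_mk _
  exact h

theorem lint_ac_const {Φ : S n → ℝ≥0∞} (e e' : S n) :
    ∫⁻ g, Φ (ac g e) ∂ha n = ∫⁻ g, Φ (ac g e') ∂ha n := by
  obtain ⟨l, hl⟩ := act_trans (e' : E n) (e : E n) (by simp) (by simp)
  have h1 : ∀ g : On n, ac g e = ac (l⁻¹ * g) e' := by
    intro g
    rw [ac_mul]
    congr 1
    apply Subtype.ext
    show (e : E n) = act n (l⁻¹)⁻¹ e'
    rw [inv_inv, hl]
  simp_rw [h1]
  exact lintegral_mul_left_eq_self (μ := ha n) (fun g => Φ (ac g e')) l⁻¹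

/-- **The distribution of `g⁻¹ e` is the uniform one.** -/
theorem lint_ac {Φ : S n → ℝ≥0∞} (hΦ : Measurable Φ) (e : S n) :
    surf n univ * ∫⁻ g, Φ (ac g e) ∂ha n = ∫⁻ e, Φ e ∂surf n := by
  have h1 : ∫⁻ u, ∫⁻ g, Φ (ac g u) ∂ha n ∂surf n = ∫⁻ g, ∫⁻ u, Φ (ac g u) ∂surf n ∂ha n := by
    refine lintegral_lintegral_swap ?_
    exact (hΦ.comp measurable_ac).aemeasurable
  have h2 : ∀ g : On n, ∫⁻ u, Φ (ac g u) ∂surf n = ∫⁻ e, Φ e ∂surf n := fun g =>
    (mp_rot (act n g⁻¹)).lintegral_comp hΦ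
  have h3 : ∀ u : S n, ∫⁻ g, Φ (ac g u) ∂ha n = ∫⁻ g, Φ (ac g e) ∂ha n := fun u =>
    lint_ac_const u e
  simp_rw [h2, h3, lintegral_const] at h1
  have hp : ha n univ = 1 := measure_univ
  rw [hp, mul_one, mul_comm] at h1
  exact h1

theorem surf_univ_ne_top (n : ℕ) : surf n univ ≠ ∞ := measure_ne_top _ _

theorem surf_univ_ne_zero (hn : 1 ≤ n) : surf n univ ≠ 0 := by
  have : Nonempty (Fin n) := ⟨⟨0, hn⟩⟩
  have hnt : Nontrivial (E n) := inferInstance
  rw [Measure.toSphere_apply_univ]
  refine mul_ne_zero ?_ (measure_ball_pos _ _ one_pos).ne'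
  rw [finrank_euclideanSpace, Fintype.card_fin]
  exact_mod_cast (by omega : n ≠ 0)

end Pool.Agent.H224.BM
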