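import Pool.Agent.H224.BM.Split
import Pool.Graph.R_seed8.W131.HM.CapVol

/-!
# Averages over tubes and averages over their slices
-/

set_option autoImplicit false

open MeasureTheory Set Metric Filter Topology
open scoped ENNReal NNReal

namespace Pool.Agent.H224.BM

open Pool.Agent.Q93.KF

variable {j m : ℕ}

/-- The Kakeya maximal function of a nonnegative function. -/
noncomputable def mx {n : ℕ} (F : E n → ℝ≥0∞) (δ : ℝ) (e : E n) : ℝ≥0∞ := ⨆ b : E n, av F δ b e

theorem mx_rotate {n : ℕ} (L : E n ≃ₗᵢ[ℝ] E n) (F : E n → ℝ≥0∞) (δ : ℝ) (e : E n) :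
    mx (fun y => F (L y)) δ e = mx F δ (L e) := by
  unfold mx
  simp_rw [av_rotate L F δ]
  exact L.surjective.iSup_comp (g := fun b => av F δ b (L e))

/-- The volumes of the tubes in `ℝ^(m+1)` and in `ℝ^(j+m+1)` -/
theorem vol_ratio (j m : ℕ) : ∃ κ : ℝ, 0 < κ ∧ ∀ δ : ℝ, 0 < δ → δ ≤ 1 →
    ∀ (b : E (m + 1)) (a e : E (j + m + 1)), ‖e‖ = 1 →
      (volume (tube δ a e))⁻¹ * volume (tube δ b (e0 m)) ≤ ENNReal.ofReal (κ / δ ^ j) := by
  obtain ⟨κ, hκ, hV⟩ := Pool.Agent.W131.HM.VOL (j + m)
  refine ⟨κ⁻¹ * 2 ^ m, by positivity, fun δ hδ hδ1 b a e he => ?_⟩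
  have h1 : ENNReal.ofReal (κ * δ ^ (j + m)) ≤ volume (tube δ a e) := (hV a e δ he hδ hδ1).1
  have h2 : volume (tube δ b (e0 m)) ≤ ENNReal.ofReal ((2 * δ) ^ m) := by
    set c : Fin (m + 1) → ℝ := Fin.cons (1 / 2) fun _ => δ with hc
    have hsub : tube δ b (e0 m) ⊆ {x : E (m + 1) | ∀ i, |x i - b i| ≤ c i} := by
      rintro y ⟨h3, h4⟩ i
      rw [inner_e0] at h3 h4
      refine Fin.cases ?_ (fun i => ?_) i
      · exact h3
      · have h5 := (abs_le_norm ((y - b) - ((y - b) 0) • e0 m) i.succ).trans h4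
        rw [PiLp.sub_apply, PiLp.smul_apply, e0_succ, smul_zero, sub_zero] at h5
        exact h5
    refine (measure_mono hsub).trans ?_
    rw [vol_box, Fin.prod_univ_succ]
    simp only [hc, Fin.cons_zero, Fin.cons_succ, Finset.prod_const, Finset.card_univ,
      Fintype.card_fin]
    rw [← ENNReal.ofReal_pow (by positivity)]
    norm_num
  calc (volume (tube δ a e))⁻¹ * volume (tube δ b (e0 m))
      ≤ (ENNReal.ofReal (κ * δ ^ (j + m)))⁻¹ * ENNReal.ofReal ((2 * δ) ^ m) := by
        gcongr
    _ = ENNReal.ofReal (κ⁻¹ * 2 ^ m / δ ^ j) := by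
        rw [← ENNReal.ofReal_inv_of_pos (by positivity), ← ENNReal.ofReal_mul (by positivity)]
        congr 1
        rw [pow_add, mul_pow]
        field_simp

/-- **Averages over tubes and averages over their slices** -/
theorem av_slices {κ : ℝ} {δ : ℝ} (hδ : 0 < δ)
    (hκ : ∀ (b : E (m + 1)) (a e : E (j + m + 1)), ‖e‖ = 1 →
      (volume (tube δ a e))⁻¹ * volume (tube δ b (e0 m)) ≤ ENNReal.ofReal (κ / δ ^ j))
    (F : E (j + m + 1) → ℝ≥0∞) (hF : Measurable F) (R : E (j + m + 1) ≃ₗᵢ[ℝ] E (j + m + 1))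
    (a : E (j + m + 1)) :
    av F δ a (R (e0 (j + m))) ≤ ENNReal.ofReal (κ / δ ^ j) *
      ∫⁻ σ in closedBall (pb j m (R.symm a)) δ, mx (fun x => F (R (J x σ))) δ (e0 m) := by
  set b := R.symm a with hb
  have hab : a = R b := by rw [hb, LinearIsometryEquiv.apply_symm_apply]
  rw [hab, ← av_rotate R F δ b (e0 (j + m))]
  set F' : E (j + m + 1) → ℝ≥0∞ := fun y => F (R y) with hF'
  have hF'm : Measurable F' := hF.comp R.continuous.measurable
  set v := volume (tube δ (pa j m b) (e0 m)) with hv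
  have hv0 : v ≠ 0 := vol_tube_ne_zero hδ (norm_e0 m) _
  have hvt : v ≠ ∞ := vol_tube_ne_top (norm_e0 m) _
  have h1 : ∫⁻ y in tube δ b (e0 (j + m)), F' y ≤
      ∫⁻ σ in closedBall (pb j m b) δ, v * mx (fun x => F' (J x σ)) δ (e0 m) := by
    rw [← lintegral_indicator (isClosed_tube _ _ _).measurableSet,
      ← (mp_J j m).lintegral_comp (hF'm.indicator (isClosed_tube _ _ _).measurableSet),
      Measure.volume_eq_prod, lintegral_prod_symm']
    · rw [← lintegral_indicator isClosed_closedBall.measurableSet]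
      refine lintegral_mono fun σ => ?_
      by_cases hσ : σ ∈ closedBall (pb j m b) δ
      · rw [indicator_of_mem hσ]
        have h2 : ∫⁻ x, (tube δ b (e0 (j + m))).indicator F' (J x σ) ≤
            ∫⁻ x in tube δ (pa j m b) (e0 m), F' (J x σ) := by
          rw [← lintegral_indicator (isClosed_tube _ _ _).measurableSet]
          refine lintegral_mono fun x => ?_
          by_cases hx : J x σ ∈ tube δ b (e0 (j + m))
          · have h3 := (tube_split hδ.le hx).1
            rw [pa_J] at h3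
            rw [indicator_of_mem hx, indicator_of_mem h3]
          · rw [indicator_of_notMem hx]
            exact zero_le
        refine h2.trans ?_
        have h4 : ∫⁻ x in tube δ (pa j m b) (e0 m), F' (J x σ) =
            v * av (fun x => F' (J x σ)) δ (pa j m b) (e0 m) := by
          unfold av
          rw [← mul_assoc, ENNReal.mul_inv_cancel hv0 hvt, one_mul]
        rw [h4]
        gcongr
        exact le_iSup (fun b => av (fun x => F' (J x σ)) δ b (e0 m)) (pa j m b)
      · rw [indicator_of_notMem hσ]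
        refine le_of_eq ?_
        have h2 : ∀ x, (tube δ b (e0 (j + m))).indicator F' (J x σ) = 0 := by
          intro x
          rw [indicator_of_notMem]
          intro hx
          apply hσ
          have h3 := (tube_split hδ.le hx).2
          rw [pb_J] at h3
          rw [mem_closedBall, dist_eq_norm]
          exact h3
        simp [h2]
    · exact (hF'm.indicator (isClosed_tube _ _ _).measurableSet).comp (mp_J j m).measurable
  unfold av
  calc (volume (tube δ b (e0 (j + m))))⁻¹ * ∫⁻ y in tube δ b (e0 (j + m)), F' y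
      ≤ (volume (tube δ b (e0 (j + m))))⁻¹ *
        ∫⁻ σ in closedBall (pb j m b) δ, v * mx (fun x => F' (J x σ)) δ (e0 m) := by gcongr
    _ = ((volume (tube δ b (e0 (j + m))))⁻¹ * v) *
        ∫⁻ σ in closedBall (pb j m b) δ, mx (fun x => F' (J x σ)) δ (e0 m) := by
        rw [lintegral_const_mul' _ _ hvt, mul_assoc]
    _ ≤ _ := by
        gcongr
        exact hκ _ _ _ (norm_e0 _)

end Pool.Agent.H224.BM
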