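import Pool.Agent.H224.BM.Proj

/-!
# The splitting `ℝ^(j+m+1) = ℝ^(m+1) × ℝ^j`
-/

set_option autoImplicit false

open MeasureTheory Set Metric Filter Topology
open scoped ENNReal NNReal

namespace Pool.Agent.H224.BM

open Pool.Agent.Q93.KF

variable {j m : ℕ}

/-- the first unit vector -/
noncomputable def e0 (k : ℕ) : E (k + 1) := EuclideanSpace.single 0 1

theorem norm_e0 (k : ℕ) : ‖e0 k‖ = 1 := by simp [e0]

theorem inner_e0 {k : ℕ} (x : E (k + 1)) : inner ℝ x (e0 k) = x 0 := by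
  simp [e0, EuclideanSpace.inner_single_right]

theorem e0_zero (k : ℕ) : e0 k 0 = 1 := by simp [e0]

theorem e0_succ (k : ℕ) (i : Fin k) : e0 k i.succ = 0 := by
  simp [e0, Fin.succ_ne_zero]

/-- the coordinates other than the first -/
noncomputable def tl (k : ℕ) : E (k + 1) →ₗ[ℝ] E k where
  toFun x := WithLp.toLp 2 fun i => x i.succ
  map_add' x y := by ext i; simp
  map_smul' r x := by ext i; simp

theorem tl_apply {k : ℕ} (x : E (k + 1)) (i : Fin k) : tl k x i = x i.succ := rfl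

theorem norm_tl {k : ℕ} (x : E (k + 1)) : ‖x‖ ^ 2 = x 0 ^ 2 + ‖tl k x‖ ^ 2 := by
  rw [EuclideanSpace.norm_sq_eq, EuclideanSpace.norm_sq_eq, Fin.sum_univ_succ]
  simp [tl_apply]

/-- the component in `ℝ^(m+1)` -/
noncomputable def pa (j m : ℕ) : E (j + m + 1) →ₗ[ℝ] E (m + 1) where
  toFun x := WithLp.toLp 2 (Fin.cons (x 0) fun q => x (Fin.natAdd j q).succ)
  map_add' x y := by
    ext i
    refine Fin.cases ?_ (fun i => ?_) i <;> simp
  map_smul' r x := by
    ext i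
    refine Fin.cases ?_ (fun i => ?_) i <;> simp

/-- the component in `ℝ^j` -/
noncomputable def pb (j m : ℕ) : E (j + m + 1) →ₗ[ℝ] E j := (P1 j m).comp (tl (j + m))

theorem pb_apply (x : E (j + m + 1)) (i : Fin j) : pb j m x i = x (Fin.castAdd m i).succ := rfl

theorem pa_zero (x : E (j + m + 1)) : pa j m x 0 = x 0 := rfl

theorem pa_succ (x : E (j + m + 1)) (q : Fin m) : pa j m x q.succ = x (Fin.natAdd j q).succ := rfl

/-- the splitting as a linear map -/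
noncomputable def Jl (j m : ℕ) : WithLp 2 (E (m + 1) × E j) →ₗ[ℝ] E (j + m + 1) where
  toFun p := WithLp.toLp 2 (Fin.cons (p.fst 0)
    (Fin.append (fun i => p.snd i) fun q => p.fst q.succ))
  map_add' x y := by
    ext i
    refine Fin.cases ?_ (fun i => ?_) i
    · simp
    · refine Fin.addCases (fun i => ?_) (fun i => ?_) i <;> simp
  map_smul' r x := by
    ext i
    refine Fin.cases ?_ (fun i => ?_) i
    · simp
    · refine Fin.addCases (fun i => ?_) (fun i => ?_) i <;> simp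

theorem norm_Jl (p : WithLp 2 (E (m + 1) × E j)) : ‖Jl j m p‖ = ‖p‖ := by
  have h1 : ‖Jl j m p‖ ^ 2 = ‖p‖ ^ 2 := by
    rw [WithLp.prod_norm_sq_eq_of_L2, EuclideanSpace.norm_sq_eq, EuclideanSpace.norm_sq_eq,
      EuclideanSpace.norm_sq_eq, Fin.sum_univ_succ, Fin.sum_univ_add, Fin.sum_univ_succ]
    simp only [Jl, LinearMap.coe_mk, AddHom.coe_mk, Fin.cons_zero, Fin.cons_succ,
      Fin.append_left, Fin.append_right]
    ring
  exact (pow_left_inj₀ (norm_nonneg _) (norm_nonneg _) two_ne_zero).1 h1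

/-- the splitting as an isometry -/
noncomputable def Ji (j m : ℕ) : WithLp 2 (E (m + 1) × E j) ≃ₗᵢ[ℝ] E (j + m + 1) :=
  LinearIsometry.toLinearIsometryEquiv ⟨Jl j m, norm_Jl⟩ (by
    rw [finrank_euclideanSpace, Fintype.card_fin]
    have h1 : Module.finrank ℝ (WithLp 2 (E (m + 1) × E j)) =
        Module.finrank ℝ (E (m + 1) × E j) :=
      (WithLp.linearEquiv 2 ℝ (E (m + 1) × E j)).finrank_eq
    rw [h1, Module.finrank_prod, finrank_euclideanSpace, finrank_euclideanSpace,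
      Fintype.card_fin, Fintype.card_fin]
    ring)

/-- the point with the components `x` and `σ` -/
noncomputable def J (x : E (m + 1)) (σ : E j) : E (j + m + 1) := Ji j m (WithLp.toLp 2 (x, σ))

theorem J_def (x : E (m + 1)) (σ : E j) : J x σ = Jl j m (WithLp.toLp 2 (x, σ)) := rfl

theorem J_zero (x : E (m + 1)) (σ : E j) : J x σ 0 = x 0 := rfl

theorem J_left (x : E (m + 1)) (σ : E j) (i : Fin j) : J x σ (Fin.castAdd m i).succ = σ i := by
  rw [J_def]
  simp [Jl]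

theorem J_right (x : E (m + 1)) (σ : E j) (q : Fin m) : J x σ (Fin.natAdd j q).succ = x q.succ := by
  rw [J_def]
  simp [Jl]

theorem mp_J (j m : ℕ) : MeasurePreserving (fun p : E (m + 1) × E j => J p.1 p.2) :=
  (Ji j m).measurePreserving.comp (WithLp.volume_preserving_toLp (E (m + 1)) (E j))

theorem pa_J (x : E (m + 1)) (σ : E j) : pa j m (J x σ) = x := by
  ext i
  refine Fin.cases ?_ (fun i => ?_) i
  · rw [pa_zero, J_zero]
  · rw [pa_succ, J_right]

theorem pb_J (x : E (m + 1)) (σ : E j) : pb j m (J x σ) = σ := by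
  ext i
  rw [pb_apply, J_left]

theorem J_pa_pb (y : E (j + m + 1)) : J (pa j m y) (pb j m y) = y := by
  ext i
  refine Fin.cases ?_ (fun i => ?_) i
  · rw [J_zero, pa_zero]
  · refine Fin.addCases (fun i => ?_) (fun i => ?_) i
    · rw [J_left, pb_apply]
    · rw [J_right, pa_succ]

theorem norm_J (x : E (m + 1)) (σ : E j) : ‖J x σ‖ ^ 2 = ‖x‖ ^ 2 + ‖σ‖ ^ 2 := by
  unfold J
  rw [LinearIsometryEquiv.norm_map, WithLp.prod_norm_sq_eq_of_L2]
  rfl

theorem J_add (x x' : E (m + 1)) (σ σ' : E j) : J (x + x') (σ + σ') = J x σ + J x' σ' :=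
  (Jl j m).map_add (WithLp.toLp 2 (x, σ)) (WithLp.toLp 2 (x', σ'))

theorem J_smul (r : ℝ) (x : E (m + 1)) (σ : E j) : J (r • x) (r • σ) = r • J x σ :=
  (Jl j m).map_smul r (WithLp.toLp 2 (x, σ))

theorem norm_split (y : E (j + m + 1)) : ‖y‖ ^ 2 = ‖pa j m y‖ ^ 2 + ‖pb j m y‖ ^ 2 := by
  rw [← norm_J, J_pa_pb]

theorem pa_e0 : pa j m (e0 (j + m)) = e0 m := by
  ext i
  refine Fin.cases ?_ (fun i => ?_) i
  · rw [pa_zero, e0_zero, e0_zero]
  · rw [pa_succ, e0_succ, e0_succ]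

theorem pb_e0 : pb j m (e0 (j + m)) = 0 := by
  ext i
  rw [pb_apply, e0_succ]
  rfl

/-- the components of the points of a tube -/
theorem tube_split {δ : ℝ} {b y : E (j + m + 1)} (hδ : 0 ≤ δ) (h : y ∈ tube δ b (e0 (j + m))) :
    pa j m y ∈ tube δ (pa j m b) (e0 m) ∧ ‖pb j m y - pb j m b‖ ≤ δ := by
  obtain ⟨h1, h2⟩ := h
  rw [inner_e0] at h1 h2
  set z := (y - b) - ((y - b) 0) • e0 (j + m) with hz
  have h3 : pa j m z = (pa j m y - pa j m b) - ((pa j m y - pa j m b) 0) • e0 m := by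
    rw [hz, map_sub, map_smul, map_sub, pa_e0]
    rfl
  have h4 : pb j m z = pb j m y - pb j m b := by
    rw [hz, map_sub, map_smul, map_sub, pb_e0, smul_zero, sub_zero]
  have h5 := norm_split z
  have h6 : ‖z‖ ^ 2 ≤ δ ^ 2 := by gcongr
  refine ⟨⟨?_, ?_⟩, ?_⟩
  · rw [inner_e0, ← map_sub, pa_zero]
    exact h1
  · rw [inner_e0, ← h3]
    refine (sq_le_sq₀ (norm_nonneg _) hδ).1 ?_
    nlinarith [sq_nonneg ‖pb j m z‖]
  · rw [← h4]
    refine (sq_le_sq₀ (norm_nonneg _) hδ).1 ?_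
    nlinarith [sq_nonneg ‖pa j m z‖]

/-! ### isometries acting on a part of the coordinates -/

/-- acting on the coordinates other than the first -/
noncomputable def hatl {N : ℕ} (L : E N ≃ₗᵢ[ℝ] E N) : E (N + 1) →ₗ[ℝ] E (N + 1) where
  toFun y := WithLp.toLp 2 (Fin.cons (y 0) fun i => L (tl N y) i)
  map_add' x y := by
    ext i
    refine Fin.cases ?_ (fun i => ?_) i <;> simp
  map_smul' r x := by
    ext i
    refine Fin.cases ?_ (fun i => ?_) i <;> simp

theorem hatl_zero {N : ℕ} (L : E N ≃ₗᵢ[ℝ] E N) (y : E (N + 1)) : hatl L y 0 = y 0 := rfl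

theorem tl_hatl {N : ℕ} (L : E N ≃ₗᵢ[ℝ] E N) (y : E (N + 1)) : tl N (hatl L y) = L (tl N y) := by
  ext i
  rfl

theorem norm_hatl {N : ℕ} (L : E N ≃ₗᵢ[ℝ] E N) (y : E (N + 1)) : ‖hatl L y‖ = ‖y‖ := by
  have h1 : ‖hatl L y‖ ^ 2 = ‖y‖ ^ 2 := by
    rw [norm_tl, norm_tl, hatl_zero, tl_hatl, LinearIsometryEquiv.norm_map]
  exact (pow_left_inj₀ (norm_nonneg _) (norm_nonneg _) two_ne_zero).1 h1

/-- the isometry `id ⊕ L` -/
noncomputable def hat {N : ℕ} (L : E N ≃ₗᵢ[ℝ] E N) : E (N + 1) ≃ₗᵢ[ℝ] E (N + 1) :=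
  LinearIsometry.toLinearIsometryEquiv ⟨hatl L, norm_hatl L⟩ rfl

theorem hat_apply {N : ℕ} (L : E N ≃ₗᵢ[ℝ] E N) (y : E (N + 1)) : hat L y = hatl L y := rfl

theorem eq_of_zero_tl {N : ℕ} {x y : E (N + 1)} (h1 : x 0 = y 0) (h2 : tl N x = tl N y) : x = y := by
  ext i
  refine Fin.cases h1 (fun i => ?_) i
  have h3 := congrArg (fun z : E N => z i) h2
  exact h3

theorem hat_e0 {N : ℕ} (L : E N ≃ₗᵢ[ℝ] E N) : hat L (e0 N) = e0 N := by
  refine eq_of_zero_tl rfl ?_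
  rw [hat_apply, tl_hatl]
  have h1 : tl N (e0 N) = 0 := by
    ext i
    rw [tl_apply, e0_succ]
    rfl
  rw [h1, map_zero]

theorem hat_symm {N : ℕ} (L : E N ≃ₗᵢ[ℝ] E N) : (hat L).symm = hat L.symm := by
  ext1 y
  rw [LinearIsometryEquiv.symm_apply_eq]
  refine eq_of_zero_tl rfl ?_
  rw [hat_apply, tl_hatl, hat_apply, tl_hatl, LinearIsometryEquiv.apply_symm_apply]

theorem act_surj {n : ℕ} (L : E n ≃ₗᵢ[ℝ] E n) : ∃ l : On n, act n l = L :=
  ⟨Unitary.linearIsometryEquiv.symm L, Unitary.linearIsometryEquiv.apply_symm_apply _⟩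

/-- the isometry `(x, σ) ↦ (L x, σ)` -/
noncomputable def bar {j m : ℕ} (L : E (m + 1) ≃ₗᵢ[ℝ] E (m + 1)) :
    E (j + m + 1) ≃ₗᵢ[ℝ] E (j + m + 1) :=
  LinearIsometry.toLinearIsometryEquiv
    ⟨{ toFun := fun y => J (L (pa j m y)) (pb j m y)
       map_add' := by
        intro x y
        rw [map_add, map_add, map_add, J_add]
       map_smul' := by
        intro r x
        rw [map_smul, map_smul, map_smul, J_smul, RingHom.id_apply] }, by
      intro y
      have h1 : ‖J (L (pa j m y)) (pb j m y)‖ ^ 2 = ‖y‖ ^ 2 := by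
        rw [norm_J, LinearIsometryEquiv.norm_map, ← norm_split]
      exact (pow_left_inj₀ (norm_nonneg _) (norm_nonneg _) two_ne_zero).1 h1⟩ rfl

theorem bar_J {j m : ℕ} (L : E (m + 1) ≃ₗᵢ[ℝ] E (m + 1)) (x : E (m + 1)) (σ : E j) :
    bar L (J x σ) = J (L x) σ := by
  show J (L (pa j m (J x σ))) (pb j m (J x σ)) = _
  rw [pa_J, pb_J]

end Pool.Agent.H224.BM
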